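import Pool.Agent.RGB.Defs

set_option autoImplicit false

/-!
# RGB module ARR: generating the stabilizer from generating arrows (about 120 lines)

`Gen Φ g x` says: the arrow `(g, x) : x → g • x` belongs to the groupoid generated by `Φ`.

## Proof of `exists_gens` (spanning tree)

(1) For every `n` with `1 ≤ n ≤ |X|` there are a finite set `A` of `n` points containing `x₀`,
`Φ' ⊆ Φ` with `n - 1` elements and `τ : X → H` with `τ x₀ = 1`, `τ x • x₀ = x` for `x ∈ A`, and
`g • x ∈ A`, `x ∈ A`, `g * τ x = τ (g • x)` for `(g, x) ∈ Φ'`. Induction over `n`: if `A ≠ X`, then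
some `(g, x) ∈ Φ` has exactly one of `x`, `g • x` in `A` (otherwise by induction over `Gen` every
generated arrow has both or no end in `A`, but all arrows are generated and the action is
transitive); enlarge `A` by the other end (`Function.update τ`; the new value is `g * τ x`,
respectively `g⁻¹ * τ (g • x)`) and `Φ'` by `(g, x)` (it is not in `Φ'` since one of its ends is not
in `A`).
(2) For `n = |X|`: `T` = the image of `Φ \ Φ'` under `(g, x) ↦ (τ (g • x))⁻¹ * g * τ x` (it fixes
`x₀`). Its cardinality is `≤ |Φ| - (|X| - 1)`. By induction over `Gen Φ h x`: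
`(τ (h • x))⁻¹ * h * τ x` is in the subgroup generated by `T` (for `(g, x) ∈ Φ'` it is `1`). For
`x = x₀`, `h ∈ stabilizer`: this is `h`.

(To avoid subtypes work with the subgroup `K = closure (image)` of `H` first and go to
the stabilizer at the end, or construct `T` directly with `Finset.attach`/`Finset.image` and proofs.)

`rk_le`: apply `exists_gens` to `X = H ⧸ Γ`, `x₀ = (1 : H ⧸ Γ)`; the stabilizer of `x₀` is `Γ`
(`MulAction.stabilizer_quotient`); `rk` is an infimum of cardinalities (`Nat.sInf_le`), transport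
along the equality of subgroups (`subst`/`▸` or `MulEquiv.subgroupCongr`).
-/

namespace RGB

variable {H X : Type} [Group H] [MulAction H X]

theorem Gen.mono {Φ Ψ : Set (H × X)} (h : Φ ⊆ Ψ) {g : H} {x : X} (hg : Gen Φ g x) :
    Gen Ψ g x := by
  induction hg with
  | base h' => exact Gen.base (h h')
  | one x => exact Gen.one x
  | mul _ _ ih1 ih2 => exact Gen.mul ih1 ih2
  | inv _ ih => exact Gen.inv ih

/-- If all arrows of a generating set are generated, then all arrows are generated. -/
theorem Gen.all_of_closure {Φ : Set (H × X)} (S : Set H) (hS : Subgroup.closure S = ⊤)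
    (h : ∀ s ∈ S, ∀ x, Gen Φ s x) (g : H) : ∀ x, Gen Φ g x := by
  have hg : g ∈ Subgroup.closure S := by rw [hS]; trivial
  induction hg using Subgroup.closure_induction with
  | mem s hs => exact h s hs
  | one => exact fun x => Gen.one x
  | mul a b _ _ iha ihb => exact fun x => Gen.mul (iha _) (ihb x)
  | inv a _ iha =>
    intro x
    have := Gen.inv (iha (a⁻¹ • x))
    rwa [smul_inv_smul] at this

/-- Powers. -/
theorem Gen.pow {Φ : Set (H × X)} {g : H} {x : X} (k : ℕ) (h : ∀ j < k, Gen Φ g (g ^ j • x)) :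
    Gen Φ (g ^ k) x := by
  induction k with
  | zero => rw [pow_zero]; exact Gen.one x
  | succ k ih =>
    rw [pow_succ']
    exact Gen.mul (h k (Nat.lt_succ_self k)) (ih fun j hj => h j (hj.trans (Nat.lt_succ_self k)))

open Classical in
theorem exists_tree [Finite X] (Φ : Finset (H × X)) (htr : ∀ x y : X, ∃ g : H, g • x = y)
    (hall : ∀ (g : H) (x : X), Gen (Φ : Set (H × X)) g x) (x₀ : X) (n : ℕ) :
    n + 1 ≤ Nat.card X → ∃ A : Finset X, A.card = n + 1 ∧ x₀ ∈ A ∧
      ∃ Φ' : Finset (H × X), Φ' ⊆ Φ ∧ Φ'.card = n ∧ ∃ τ : X → H, τ x₀ = 1 ∧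
        (∀ x ∈ A, τ x • x₀ = x) ∧
        ∀ a ∈ Φ', a.2 ∈ A ∧ a.1 • a.2 ∈ A ∧ a.1 * τ a.2 = τ (a.1 • a.2) := by
  induction n with
  | zero =>
    intro _
    refine ⟨{x₀}, by simp, by simp, ∅, by simp, by simp, fun _ => 1, rfl, ?_, ?_⟩
    · intro x hx
      rw [Finset.mem_singleton] at hx
      rw [hx, one_smul]
    · intro a ha
      simp at ha
  | succ n ih =>
    intro hn
    obtain ⟨A, hA, hx₀, Φ', hΦ', hc, τ, hτ1, hτ, hτΦ⟩ := ih (by omega)
    have : Fintype X := Fintype.ofFinite X
    have hex : ∃ y, y ∉ A := by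
      by_contra hcon
      push Not at hcon
      have : A = Finset.univ := Finset.eq_univ_iff_forall.2 hcon
      rw [this, Finset.card_univ] at hA
      rw [Nat.card_eq_fintype_card] at hn
      omega
    obtain ⟨y, hy⟩ := hex
    have hcross : ∃ a ∈ Φ, ¬ (a.2 ∈ A ↔ a.1 • a.2 ∈ A) := by
      by_contra hcon
      push Not at hcon
      have hg : ∀ (g : H) (x : X), Gen (Φ : Set (H × X)) g x → (x ∈ A ↔ g • x ∈ A) := by
        intro g x h
        induction h with
        | base h' => exact hcon _ (by exact_mod_cast h')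
        | one x => rw [one_smul]
        | mul _ _ ih1 ih2 => rw [mul_smul, ih2, ih1]
        | inv _ ih => rw [inv_smul_smul]; exact ih.symm
      obtain ⟨g, hgy⟩ := htr x₀ y
      have h2 := hg g x₀ (hall g x₀)
      rw [hgy] at h2
      exact hy (h2.1 hx₀)
    obtain ⟨⟨g, x⟩, haΦ, ha⟩ := hcross
    have hnot : (g, x) ∉ Φ' := by
      intro h
      obtain ⟨h1, h2, _⟩ := hτΦ _ h
      exact ha ⟨fun _ => h2, fun _ => h1⟩
    by_cases hx : x ∈ A
    · have hgx : g • x ∉ A := fun h => ha ⟨fun _ => h, fun _ => hx⟩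
      have hne : ∀ z ∈ A, z ≠ g • x := fun z hz h => hgx (h ▸ hz)
      refine ⟨insert (g • x) A, by rw [Finset.card_insert_of_notMem hgx, hA],
        Finset.mem_insert_of_mem hx₀, insert (g, x) Φ', Finset.insert_subset haΦ hΦ',
        by rw [Finset.card_insert_of_notMem hnot, hc], Function.update τ (g • x) (g * τ x),
        ?_, ?_, ?_⟩
      · rw [Function.update_of_ne (hne _ hx₀), hτ1]
      · intro z hz
        rcases Finset.mem_insert.1 hz with rfl | hz
        · rw [Function.update_self, mul_smul, hτ x hx]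
        · rw [Function.update_of_ne (hne _ hz), hτ z hz]
      · intro a ha'
        rcases Finset.mem_insert.1 ha' with rfl | ha'
        · refine ⟨Finset.mem_insert_of_mem hx, Finset.mem_insert_self _ _, ?_⟩
          rw [Function.update_self, Function.update_of_ne (hne _ hx)]
        · obtain ⟨h1, h2, h3⟩ := hτΦ a ha'
          refine ⟨Finset.mem_insert_of_mem h1, Finset.mem_insert_of_mem h2, ?_⟩
          rw [Function.update_of_ne (hne _ h1), Function.update_of_ne (hne _ h2), h3]
    · have hgx : g • x ∈ A := by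
        by_contra h
        exact ha ⟨fun h' => absurd h' hx, fun h' => absurd h' h⟩
      have hne : ∀ z ∈ A, z ≠ x := fun z hz h => hx (h ▸ hz)
      refine ⟨insert x A, by rw [Finset.card_insert_of_notMem hx, hA],
        Finset.mem_insert_of_mem hx₀, insert (g, x) Φ', Finset.insert_subset haΦ hΦ',
        by rw [Finset.card_insert_of_notMem hnot, hc],
        Function.update τ x (g⁻¹ * τ (g • x)), ?_, ?_, ?_⟩
      · rw [Function.update_of_ne (hne _ hx₀), hτ1]
      · intro z hz
        rcases Finset.mem_insert.1 hz with rfl | hz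
        · rw [Function.update_self, mul_smul, hτ _ hgx, inv_smul_smul]
        · rw [Function.update_of_ne (hne _ hz), hτ z hz]
      · intro a ha'
        rcases Finset.mem_insert.1 ha' with rfl | ha'
        · refine ⟨Finset.mem_insert_self _ _, Finset.mem_insert_of_mem hgx, ?_⟩
          rw [Function.update_self, Function.update_of_ne (hne _ hgx), mul_inv_cancel_left]
        · obtain ⟨h1, h2, h3⟩ := hτΦ a ha'
          refine ⟨Finset.mem_insert_of_mem h1, Finset.mem_insert_of_mem h2, ?_⟩
          rw [Function.update_of_ne (hne _ h1), Function.update_of_ne (hne _ h2), h3]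

theorem exists_gens [Finite X] (Φ : Finset (H × X)) (htr : ∀ x y : X, ∃ g : H, g • x = y)
    (hall : ∀ (g : H) (x : X), Gen (Φ : Set (H × X)) g x) (x₀ : X) :
    ∃ T : Finset (MulAction.stabilizer H x₀), T.card + Nat.card X ≤ Φ.card + 1 ∧
      Subgroup.closure (T : Set (MulAction.stabilizer H x₀)) = ⊤ := by
  classical
  have : Fintype X := Fintype.ofFinite X
  have hpos : 0 < Nat.card X := by
    have : Nonempty X := ⟨x₀⟩
    exact Nat.card_pos
  obtain ⟨A, hA, hx₀, Φ', hΦ', hc, τ, hτ1, hτ, hτΦ⟩ :=
    exists_tree Φ htr hall x₀ (Nat.card X - 1) (by omega)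
  have hAu : A = Finset.univ := by
    rw [← Finset.card_eq_iff_eq_univ, hA, ← Nat.card_eq_fintype_card]
    omega
  have hτ' : ∀ x, τ x • x₀ = x := fun x => hτ x (by rw [hAu]; exact Finset.mem_univ x)
  have hst : ∀ a : H × X, (τ (a.1 • a.2))⁻¹ * a.1 * τ a.2 ∈ MulAction.stabilizer H x₀ := by
    intro a
    rw [MulAction.mem_stabilizer_iff, mul_smul, mul_smul, hτ', inv_smul_eq_iff, hτ']
  let φ : H × X → MulAction.stabilizer H x₀ := fun a => ⟨(τ (a.1 • a.2))⁻¹ * a.1 * τ a.2, hst a⟩
  refine ⟨(Φ \ Φ').image φ, ?_, ?_⟩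
  · have h1 : ((Φ \ Φ').image φ).card ≤ (Φ \ Φ').card := Finset.card_image_le
    have h2 : (Φ \ Φ').card + Φ'.card = Φ.card := Finset.card_sdiff_add_card_eq_card hΦ'
    omega
  · have key : ∀ (g : H) (x : X), Gen (Φ : Set (H × X)) g x →
        φ (g, x) ∈ Subgroup.closure (((Φ \ Φ').image φ : Finset _) :
          Set (MulAction.stabilizer H x₀)) := by
      intro g x h
      induction h with
      | @base g x h' =>
        by_cases hm : (g, x) ∈ Φ'
        · obtain ⟨_, _, h3⟩ := hτΦ _ hm
          have : φ (g, x) = 1 := by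
            apply Subtype.ext
            change (τ (g • x))⁻¹ * g * τ x = 1
            rw [mul_assoc, h3, inv_mul_cancel]
          rw [this]
          exact Subgroup.one_mem _
        · apply Subgroup.subset_closure
          rw [Finset.mem_coe]
          exact Finset.mem_image_of_mem _ (Finset.mem_sdiff.2 ⟨by exact_mod_cast h', hm⟩)
      | one x =>
        have : φ (1, x) = 1 := by
          apply Subtype.ext
          change (τ ((1 : H) • x))⁻¹ * 1 * τ x = 1
          rw [one_smul, mul_one, inv_mul_cancel]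
        rw [this]
        exact Subgroup.one_mem _
      | @mul g h x _ _ ih1 ih2 =>
        have : φ (h * g, x) = φ (h, g • x) * φ (g, x) := by
          apply Subtype.ext
          change (τ ((h * g) • x))⁻¹ * (h * g) * τ x =
            ((τ (h • g • x))⁻¹ * h * τ (g • x)) * ((τ (g • x))⁻¹ * g * τ x)
          rw [mul_smul]
          group
        rw [this]
        exact Subgroup.mul_mem _ ih1 ih2
      | @inv g x _ ih =>
        have : φ (g⁻¹, g • x) = (φ (g, x))⁻¹ := by
          apply Subtype.ext
          change (τ (g⁻¹ • g • x))⁻¹ * g⁻¹ * τ (g • x) = ((τ (g • x))⁻¹ * g * τ x)⁻¹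
          rw [inv_smul_smul]
          group
        rw [this]
        exact Subgroup.inv_mem _ ih
    rw [eq_top_iff]
    intro h _
    have h1 := key h.1 x₀ (hall _ _)
    have h2 : φ (h.1, x₀) = h := by
      apply Subtype.ext
      change (τ (h.1 • x₀))⁻¹ * h.1 * τ x₀ = h.1
      have h3 : h.1 • x₀ = x₀ := h.2
      rw [h3, hτ1]
      group
    rw [h2] at h1
    exact h1

theorem rk_le_of_equiv {A B : Type} [Group A] [Group B] (e : A ≃* B) (T : Finset A)
    (hT : Subgroup.closure (T : Set A) = ⊤) : rk B ≤ T.card := by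
  classical
  have h1 : rk B ≤ (T.image e).card := by
    apply Nat.sInf_le
    refine ⟨T.image e, rfl, ?_⟩
    rw [Finset.coe_image]
    have h2 : Subgroup.closure ((e : A → B) '' (T : Set A)) =
        Subgroup.map e.toMonoidHom (Subgroup.closure (T : Set A)) :=
      (MonoidHom.map_closure e.toMonoidHom (T : Set A)).symm
    rw [h2, hT, ← MonoidHom.range_eq_map]
    exact MonoidHom.range_eq_top.2 e.surjective
  exact h1.trans Finset.card_image_le

theorem rk_le (Γ : Subgroup H) [Γ.FiniteIndex] (Φ : Finset (H × (H ⧸ Γ)))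
    (hall : ∀ (g : H) (x : H ⧸ Γ), Gen (Φ : Set (H × (H ⧸ Γ))) g x) :
    rk Γ + Γ.index ≤ Φ.card + 1 := by
  obtain ⟨T, hT, hcl⟩ := exists_gens Φ (fun x y => MulAction.exists_smul_eq H x y) hall
    ((1 : H) : H ⧸ Γ)
  have hst : MulAction.stabilizer H ((1 : H) : H ⧸ Γ) = Γ := MulAction.stabilizer_quotient Γ
  have h1 := rk_le_of_equiv (MulEquiv.subgroupCongr hst) T hcl
  have h3 : Nat.card (H ⧸ Γ) = Γ.index := rfl
  omega

end RGB
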