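import Pool.Agent.RGB.Defs

set_option autoImplicit false

/-!
# RGB module COMB: the number of classes of darts

Let `D = {c : V × V // L.Adj c.1 c.2}` with the equivalence relation `Deq L` and the quotient `Q`
(finite). Every component `C` of `L - v` contains a neighbour `w` of `v` (`exists_nbr`); put
`q (v, C)` = class of `(v, w)`. Let `T` be the simple graph on `V ⊕ Q` with edges
`inl v — inr (q (v, C))`. It is connected, so `|V| + |Q| ≤ |edges of T| + 1`, and
`|edges of T| ≤ ∑ v, cc L v`. So `|Q| ≤ 1 + ∑ v, (cc L v - 1)`. `E` = one representative of each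
class.
-/

namespace RGB

variable {V : Type}

theorem exists_nbr_aux (L : SimpleGraph V) {x v : V} (p : L.Walk x v) :
    ∀ hx : x ≠ v, ∃ w, ∃ h : w ≠ v, L.Adj v w ∧
      (L.induce {u | u ≠ v}).Reachable ⟨x, hx⟩ ⟨w, h⟩ := by
  induction p with
  | nil => intro hx; exact absurd rfl hx
  | @cons x y v hxy p ih =>
    intro hx
    by_cases hy : y = v
    · subst hy
      exact ⟨x, hx, hxy.symm, SimpleGraph.Reachable.refl _⟩
    · obtain ⟨w, h, hw, hr⟩ := ih hy
      refine ⟨w, h, hw, SimpleGraph.Reachable.trans ?_ hr⟩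
      apply SimpleGraph.Adj.reachable
      exact hxy

theorem exists_nbr (L : SimpleGraph V) (hL : L.Connected) (v : V)
    (C : (L.induce {u | u ≠ v}).ConnectedComponent) :
    ∃ w, ∃ h : w ≠ v, L.Adj v w ∧
      (L.induce {u | u ≠ v}).connectedComponentMk ⟨w, h⟩ = C := by
  induction C using SimpleGraph.ConnectedComponent.ind with
  | _ x =>
    obtain ⟨x, hx⟩ := x
    obtain ⟨p⟩ := hL.preconnected x v
    obtain ⟨w, h, hw, hr⟩ := exists_nbr_aux L p hx
    exact ⟨w, h, hw, SimpleGraph.ConnectedComponent.sound hr.symm⟩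

/-- The darts. -/
abbrev Dart' (L : SimpleGraph V) : Type := {c : V × V // L.Adj c.1 c.2}

/-- The equivalence of darts. -/
def deqS (L : SimpleGraph V) : Setoid (Dart' L) where
  r c c' := Deq L c.1 c'.1
  iseqv := ⟨fun _ => Deq.refl _, fun h => Deq.symm h, fun h h' => Deq.trans h h'⟩

/-- The classes of darts. -/
abbrev QD (L : SimpleGraph V) : Type := Quotient (deqS L)

/-- The class of the dart from `v` to a neighbour in the component. -/
noncomputable def qmap (L : SimpleGraph V) (hL : L.Connected)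
    (a : Σ v : V, (L.induce {u | u ≠ v}).ConnectedComponent) : QD L :=
  Quotient.mk (deqS L) ⟨(a.1, Classical.choose (exists_nbr L hL a.1 a.2)),
    (Classical.choose_spec (Classical.choose_spec (exists_nbr L hL a.1 a.2))).1⟩

theorem qmap_eq (L : SimpleGraph V) (hL : L.Connected) {v w : V} (hvw : L.Adj v w) :
    qmap L hL ⟨v, (L.induce {u | u ≠ v}).connectedComponentMk ⟨w, hvw.ne'⟩⟩ =
      Quotient.mk (deqS L) ⟨(v, w), hvw⟩ := by
  unfold qmap
  apply Quotient.sound
  change Deq L (v, _) (v, w)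
  have h1 := Classical.choose_spec (exists_nbr L hL v
    ((L.induce {u | u ≠ v}).connectedComponentMk ⟨w, hvw.ne'⟩))
  obtain ⟨h2, h3, h4⟩ := h1
  exact Deq.turn h2 hvw.ne' h3 hvw (SimpleGraph.ConnectedComponent.exact h4)

/-- The auxiliary bipartite graph. -/
noncomputable def auxG (L : SimpleGraph V) (hL : L.Connected) : SimpleGraph (V ⊕ QD L) where
  Adj a b := (∃ x, a = Sum.inl x.1 ∧ b = Sum.inr (qmap L hL x)) ∨
    (∃ x, b = Sum.inl x.1 ∧ a = Sum.inr (qmap L hL x))
  symm := ⟨fun a b h => h.elim Or.inr Or.inl⟩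
  loopless := ⟨fun a h => by
    rcases h with ⟨x, h1, h2⟩ | ⟨x, h1, h2⟩ <;> rw [h1] at h2 <;> cases h2⟩

theorem auxG_adj (L : SimpleGraph V) (hL : L.Connected) {v w : V} (hvw : L.Adj v w) :
    (auxG L hL).Adj (Sum.inl v) (Sum.inr (Quotient.mk (deqS L) ⟨(v, w), hvw⟩)) := by
  rw [← qmap_eq L hL hvw]
  exact Or.inl ⟨_, rfl, rfl⟩

theorem auxG_conn (L : SimpleGraph V) (hL : L.Connected) : (auxG L hL).Connected := by
  obtain ⟨v₀⟩ := hL.nonempty
  have h1 : ∀ v w, L.Adj v w → (auxG L hL).Reachable (Sum.inl v) (Sum.inl w) := by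
    intro v w hvw
    have a1 := auxG_adj L hL hvw
    have a2 := auxG_adj L hL hvw.symm
    have e : (Quotient.mk (deqS L) ⟨(v, w), hvw⟩ : QD L) =
        Quotient.mk (deqS L) ⟨(w, v), hvw.symm⟩ := Quotient.sound (Deq.flip hvw)
    rw [← e] at a2
    exact a1.reachable.trans a2.symm.reachable
  have h2 : ∀ v w, (p : L.Walk v w) → (auxG L hL).Reachable (Sum.inl v) (Sum.inl w) := by
    intro v w p
    induction p with
    | nil => exact SimpleGraph.Reachable.refl _
    | cons h p ih => exact (h1 _ _ h).trans ih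
  have h3 : ∀ a, (auxG L hL).Reachable (Sum.inl v₀) a := by
    intro a
    rcases a with v | c
    · obtain ⟨p⟩ := hL.preconnected v₀ v
      exact h2 _ _ p
    · induction c using Quotient.inductionOn with
      | _ c =>
        obtain ⟨⟨v, w⟩, hvw⟩ := c
        obtain ⟨p⟩ := hL.preconnected v₀ v
        exact (h2 _ _ p).trans (auxG_adj L hL hvw).reachable
  have : Nonempty (V ⊕ QD L) := ⟨Sum.inl v₀⟩
  exact ⟨fun a b => (h3 a).symm.trans (h3 b)⟩

theorem exists_reps {V : Type} [Fintype V] (L : SimpleGraph V) (hL : L.Connected) :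
    ∃ E : Finset (V × V), (∀ c ∈ E, L.Adj c.1 c.2) ∧
      (∀ v w, L.Adj v w → ∃ c ∈ E, Deq L (v, w) c) ∧
      (E.card : ℝ) ≤ 1 + ∑ v, ((cc L v : ℝ) - 1) := by
  classical
  have : Finite (QD L) := Quotient.finite _
  have : Fintype (QD L) := Fintype.ofFinite _
  refine ⟨Finset.univ.image (fun q : QD L => (Quotient.out q).1), ?_, ?_, ?_⟩
  · intro c hc
    obtain ⟨q, _, rfl⟩ := Finset.mem_image.1 hc
    exact (Quotient.out q).2
  · intro v w hvw
    refine ⟨(Quotient.out (Quotient.mk (deqS L) ⟨(v, w), hvw⟩ : QD L)).1,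
      Finset.mem_image_of_mem _ (Finset.mem_univ _), ?_⟩
    have h := Quotient.mk_out (s := deqS L) (⟨(v, w), hvw⟩ : Dart' L)
    exact Deq.symm h
  · have h1 : (Finset.univ.image (fun q : QD L => (Quotient.out q).1)).card ≤
        Nat.card (QD L) := by
      refine Finset.card_image_le.trans ?_
      rw [Nat.card_eq_fintype_card, Finset.card_univ]
    have h2 := (auxG_conn L hL).card_vert_le_card_edgeSet_add_one
    rw [Nat.card_sum] at h2
    have h3 : Nat.card (auxG L hL).edgeSet ≤
        Nat.card (Σ v : V, (L.induce {u | u ≠ v}).ConnectedComponent) := by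
      have hf : ∀ a : Σ v : V, (L.induce {u | u ≠ v}).ConnectedComponent,
          s(Sum.inl a.1, Sum.inr (qmap L hL a)) ∈ (auxG L hL).edgeSet := by
        intro a
        rw [SimpleGraph.mem_edgeSet]
        exact Or.inl ⟨a, rfl, rfl⟩
      apply Nat.card_le_card_of_surjective (fun a => (⟨_, hf a⟩ : (auxG L hL).edgeSet))
      rintro ⟨e, he⟩
      induction e using Sym2.ind with
      | _ a b =>
        rw [SimpleGraph.mem_edgeSet] at he
        rcases he with ⟨x, h1, h2⟩ | ⟨x, h1, h2⟩
        · refine ⟨x, Subtype.ext ?_⟩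
          change s(Sum.inl x.1, Sum.inr (qmap L hL x)) = s(a, b)
          rw [h1, h2]
        · refine ⟨x, Subtype.ext ?_⟩
          change s(Sum.inl x.1, Sum.inr (qmap L hL x)) = s(a, b)
          rw [h1, h2]
          exact Sym2.eq_swap
    have h4 : Nat.card (Σ v : V, (L.induce {u | u ≠ v}).ConnectedComponent) =
        ∑ v, cc L v := by
      rw [Nat.card_sigma]
      rfl
    have h5 : Nat.card V + Nat.card (QD L) ≤ (∑ v, cc L v) + 1 := by
      rw [← h4]
      omega
    have h6 : (Nat.card V : ℝ) + Nat.card (QD L) ≤ (∑ v, (cc L v : ℝ)) + 1 := by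
      exact_mod_cast h5
    have h7 : ((Finset.univ.image (fun q : QD L => (Quotient.out q).1)).card : ℝ) ≤
        Nat.card (QD L) := by exact_mod_cast h1
    rw [Finset.sum_sub_distrib, Finset.sum_const, Finset.card_univ, nsmul_eq_mul, mul_one]
    rw [Nat.card_eq_fintype_card (α := V)] at h6
    linarith

end RGB
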