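import Mathlib

set_option autoImplicit false

/-!
# Rank gradient of Bestvina-Brady groups: definitions
-/

namespace RGB

/-- The minimal number of generators. -/
noncomputable def rk (Γ : Type) [Group Γ] : ℕ :=
  sInf {k : ℕ | ∃ s : Finset Γ, s.card = k ∧ Subgroup.closure (s : Set Γ) = ⊤}

/-- The number of connected components of the graph `L - v`. -/
noncomputable def cc {V : Type} (L : SimpleGraph V) (v : V) : ℕ :=
  Nat.card (L.induce {w | w ≠ v}).ConnectedComponent

open Classical in
/-- The exponent sum of the letter `v` in a word. -/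
noncomputable def expo {V : Type} (v : V) : FreeGroup V →* Multiplicative ℤ :=
  FreeGroup.lift (fun w => if w = v then Multiplicative.ofAdd 1 else 1)

/-- The total exponent sum of a word. -/
noncomputable def height {V : Type} : FreeGroup V →* Multiplicative ℤ :=
  FreeGroup.lift (fun _ => Multiplicative.ofAdd 1)

/-- The conditions on the set `R` of relators: it contains the commutators of the adjacent
vertices, every exponent sum of every relator is zero, and for every vertex `v` every relator is a
word in `v` and the vertices of one component of `L - v`. -/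
structure Rel {V : Type} (L : SimpleGraph V) (R : Set (FreeGroup V)) : Prop where
  comm : ∀ v w, L.Adj v w →
    FreeGroup.of v * FreeGroup.of w * (FreeGroup.of v)⁻¹ * (FreeGroup.of w)⁻¹ ∈ R
  exp : ∀ r ∈ R, ∀ v, expo v r = 1
  comp : ∀ r ∈ R, ∀ v, ∃ C : (L.induce {w | w ≠ v}).ConnectedComponent,
    r ∈ Subgroup.closure (FreeGroup.of '' (insert v (Subtype.val '' C.supp)))

/-- The abstract properties of `H = ker (G → ℤ)`: `s k v w` is `v ^ k * w ^ (- k)`, and `psi x` is
the exponent sum of the letter `x`. -/
structure BB {V : Type} (L : SimpleGraph V) (H : Type) [Group H] where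
  s : ℕ → V → V → H
  mul : ∀ k v w u, s k v w * s k w u = s k v u
  pow : ∀ k v w, L.Adj v w → s k v w = s 1 v w ^ k
  psi : V → H →* Multiplicative ℤ
  psi_self : ∀ x k w, x ≠ w → psi x (s k x w) = Multiplicative.ofAdd (k : ℤ)
  psi_ne : ∀ x k v w, x ≠ v → x ≠ w → psi x (s k v w) = 1
  gen : Subgroup.closure {h | ∃ v w, L.Adj v w ∧ h = s 1 v w} = ⊤

/-- The arrows `(g, x) : x → g • x` of the action groupoid generated by the arrows in `Φ`. -/
inductive Gen {H X : Type} [Group H] [MulAction H X] (Φ : Set (H × X)) : H → X → Prop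
  | base {g : H} {x : X} : (g, x) ∈ Φ → Gen Φ g x
  | one (x : X) : Gen Φ 1 x
  | mul {g h : H} {x : X} : Gen Φ h (g • x) → Gen Φ g x → Gen Φ (h * g) x
  | inv {g : H} {x : X} : Gen Φ g x → Gen Φ g⁻¹ (g • x)

/-- The number of fixed points. -/
noncomputable def fx {H : Type} [Group H] (X : Type) [MulAction H X] (g : H) : ℕ :=
  Nat.card {x : X // g • x = x}

section
variable {V : Type} {L : SimpleGraph V} {H : Type} [Group H]

/-- The generator of the dart `c`. -/
def BB.e (B : BB L H) (c : V × V) : H := B.s 1 c.1 c.2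

/-- The random labels of the points (one label for every dart). -/
abbrev Om (V X : Type) (T : ℕ) : Type := (V × V) × X → Fin T

/-- The points where the arrow of `c` is present: within `2 * m` steps after a point with
label `0`. -/
def Dset (B : BB L H) {X : Type} [MulAction H X] (m : ℕ) {T : ℕ} (ω : Om V X T) (c : V × V) :
    Set X :=
  {x | ∃ j < 2 * m, (ω (c, (B.e c)⁻¹ ^ j • x) : ℕ) = 0}

/-- The set of the chosen arrows: all arrows of the darts in `E`, and random long intervals of
arrows for the other darts. -/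
def Phi (B : BB L H) {X : Type} [MulAction H X] (E : Set (V × V)) (m : ℕ) {T : ℕ}
    (ω : Om V X T) : Set (H × X) :=
  {a | ∃ c : V × V, L.Adj c.1 c.2 ∧ a.1 = B.e c ∧ (c ∈ E ∨ a.2 ∈ Dset B m ω c)}

/-- The points where the arrow of `c` is not generated. -/
def Miss (B : BB L H) {X : Type} [MulAction H X] (E : Set (V × V)) (m : ℕ) {T : ℕ}
    (ω : Om V X T) (c : V × V) : Set X :=
  {x | ¬ Gen (Phi B E m ω) (B.e c) x}

/-- The expected number of points where the arrow of `c` is not generated (`T = m * t` labels). -/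
noncomputable def emiss (B : BB L H) (X : Type) [MulAction H X] (E : Set (V × V)) (t m : ℕ)
    (c : V × V) : ℝ :=
  (∑ᶠ ω : Om V X (m * t), (Nat.card (Miss B E m ω c) : ℝ)) / Nat.card (Om V X (m * t))

/-- The expected number of missing arrows is small if `m` is large and the action is almost
free. -/
def Good (B : BB L H) (E : Set (V × V)) (t : ℕ) (c : V × V) : Prop :=
  ∀ ε : ℝ, 0 < ε → ∃ m₀ : ℕ, ∀ m, m₀ ≤ m → ∃ F : Finset H, (1 : H) ∉ F ∧ ∃ τ : ℝ, 0 < τ ∧
    ∀ (X : Type) [Finite X] [MulAction H X],
      (∀ f ∈ F, (fx X f : ℝ) ≤ τ * Nat.card X) → emiss B X E t m c ≤ ε * Nat.card X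

end

/-- The darts `(v, w)`, `(w, v)` are equivalent, and the darts `(v, w)`, `(v, w')` are equivalent if
`w`, `w'` are in the same component of `L - v`. -/
inductive Deq {V : Type} (L : SimpleGraph V) : V × V → V × V → Prop
  | refl (c : V × V) : Deq L c c
  | symm {c c' : V × V} : Deq L c c' → Deq L c' c
  | trans {c c' c'' : V × V} : Deq L c c' → Deq L c' c'' → Deq L c c''
  | flip {v w : V} : L.Adj v w → Deq L (v, w) (w, v)
  | turn {v w w' : V} (h : w ≠ v) (h' : w' ≠ v) : L.Adj v w → L.Adj v w' →
      (L.induce {u | u ≠ v}).Reachable ⟨w, h⟩ ⟨w', h'⟩ → Deq L (v, w) (v, w')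

end RGB
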