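import Pool.Agent.RGB.Defs

set_option autoImplicit false

/-!
# RGB module GRP: the kernel of the height (about 150 lines)

Let `g v = PresentedGroup.of v ∈ G = PresentedGroup R`. By `hR.comm` `g v` and `g w` commute for
adjacent `v, w`. Put `s k v w = ⟨g v ^ k * (g w)⁻¹ ^ k, _⟩`. `mul` is clear, `pow` by
`Commute.mul_pow`. `psi x` = restriction to the kernel of `PresentedGroup.toGroup` of
`fun w => if w = x then ofAdd 1 else 1` (relators by `hR.exp`: `expo x r = 1`).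

`gen`: let `N ≤ G` be the subgroup generated by all `g v * (g w)⁻¹`, `v, w` adjacent.
(a) `g v * (g w)⁻¹ ∈ N` for all `v, w` (connectedness, `Relation.ReflTransGen` or induction over
walks: `g v (g w)⁻¹ = g v (g u)⁻¹ * g u (g w)⁻¹`).
(b) Fix `v₀`. `g v₀ * n * (g v₀)⁻¹ ∈ N` and `(g v₀)⁻¹ * n * g v₀ ∈ N` for `n ∈ N`: enough for the
generators `n = g v * (g w)⁻¹`, `v, w` adjacent:
`g v₀ n (g v₀)⁻¹ = (g v₀ (g v)⁻¹) * (g v n (g v)⁻¹) * (g v (g v₀)⁻¹)` and `g v` commutes with `n`.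
(c) so every element of `G` is `n * g v₀ ^ j` with `n ∈ N`, `j : ℤ` (closure induction over the
generators of `G`, `g v = (g v (g v₀)⁻¹) * g v₀`), and `χ` of it is `ofAdd j`. So `ker χ = N`
(as `N ≤ ker χ`). Then pass from `N ≤ G` to the closure in `χ.ker` (`Subgroup.closure_preimage`,
`Subgroup.map_injective`, or redo the closure induction with subtypes).

`e_inf`: from `psi_self` (`psi (c.1)` of the power is `ofAdd k`).
-/

namespace RGB

section
variable {V : Type} {L : SimpleGraph V} {R : Set (FreeGroup V)}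

/-- The generator of the vertex. -/
def gv (R : Set (FreeGroup V)) (v : V) : PresentedGroup R := PresentedGroup.of v

theorem gv_comm (hR : Rel L R) {v w : V} (h : L.Adj v w) : Commute (gv R v) (gv R w) := by
  have h1 := PresentedGroup.one_of_mem (hR.comm v w h)
  simp only [map_mul, map_inv] at h1
  change gv R v * gv R w * (gv R v)⁻¹ * (gv R w)⁻¹ = 1 at h1
  rw [mul_inv_eq_one, mul_inv_eq_iff_eq_mul] at h1
  exact h1

/-- The subgroup generated by the differences of adjacent generators. -/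
def NN (L : SimpleGraph V) (R : Set (FreeGroup V)) : Subgroup (PresentedGroup R) :=
  Subgroup.closure {h | ∃ v w, L.Adj v w ∧ h = gv R v * (gv R w)⁻¹}

theorem NN_mem {v w : V} (h : L.Adj v w) : gv R v * (gv R w)⁻¹ ∈ NN L R :=
  Subgroup.subset_closure ⟨v, w, h, rfl⟩

theorem NN_walk {v w : V} (p : L.Walk v w) : gv R v * (gv R w)⁻¹ ∈ NN L R := by
  induction p with
  | nil => rw [mul_inv_cancel]; exact Subgroup.one_mem _
  | @cons u v w h p ih =>
    have : gv R u * (gv R w)⁻¹ = (gv R u * (gv R v)⁻¹) * (gv R v * (gv R w)⁻¹) := by group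
    rw [this]
    exact Subgroup.mul_mem _ (NN_mem h) ih

theorem NN_walk' (hR : Rel L R) {v w : V} (p : L.Walk v w) :
    (gv R v)⁻¹ * gv R w ∈ NN L R := by
  induction p with
  | nil => rw [inv_mul_cancel]; exact Subgroup.one_mem _
  | @cons u v w h p ih =>
    have : (gv R u)⁻¹ * gv R w = ((gv R u)⁻¹ * gv R v) * ((gv R v)⁻¹ * gv R w) := by group
    rw [this]
    refine Subgroup.mul_mem _ ?_ ih
    have h1 : (gv R u)⁻¹ * gv R v = gv R v * (gv R u)⁻¹ := ((gv_comm hR h).inv_left).eq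
    rw [h1]
    exact NN_mem h.symm

theorem NN_conj (hL : L.Connected) (hR : Rel L R) (v₀ : V) (n : PresentedGroup R)
    (hn : n ∈ NN L R) : gv R v₀ * n * (gv R v₀)⁻¹ ∈ NN L R := by
  unfold NN at hn
  induction hn using Subgroup.closure_induction with
  | mem x hx =>
    obtain ⟨v, w, hvw, rfl⟩ := hx
    obtain ⟨p⟩ := hL.preconnected v₀ v
    have hc : gv R v * (gv R v * (gv R w)⁻¹) = (gv R v * (gv R w)⁻¹) * gv R v :=
      ((Commute.refl (gv R v)).mul_right (gv_comm hR hvw).inv_right).eq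
    have : gv R v₀ * (gv R v * (gv R w)⁻¹) * (gv R v₀)⁻¹ =
        (gv R v₀ * (gv R v)⁻¹) * (gv R v * (gv R w)⁻¹) * (gv R v * (gv R v₀)⁻¹) := by
      have e : (gv R v₀ * (gv R v)⁻¹) * (gv R v * (gv R w)⁻¹) * (gv R v * (gv R v₀)⁻¹) =
        (gv R v₀ * (gv R v)⁻¹) * ((gv R v * (gv R w)⁻¹) * gv R v) * (gv R v₀)⁻¹ := by group
      rw [e, ← hc]
      group
    rw [this]
    exact Subgroup.mul_mem _ (Subgroup.mul_mem _ (NN_walk p) (NN_mem hvw)) (NN_walk p.reverse)
  | one => rw [mul_one, mul_inv_cancel]; exact Subgroup.one_mem _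
  | mul a b _ _ iha ihb =>
    have : gv R v₀ * (a * b) * (gv R v₀)⁻¹ =
        (gv R v₀ * a * (gv R v₀)⁻¹) * (gv R v₀ * b * (gv R v₀)⁻¹) := by group
    rw [this]
    exact Subgroup.mul_mem _ iha ihb
  | inv a _ iha =>
    have : gv R v₀ * a⁻¹ * (gv R v₀)⁻¹ = (gv R v₀ * a * (gv R v₀)⁻¹)⁻¹ := by group
    rw [this]
    exact Subgroup.inv_mem _ iha

theorem NN_conj' (hL : L.Connected) (hR : Rel L R) (v₀ : V) (n : PresentedGroup R)
    (hn : n ∈ NN L R) : (gv R v₀)⁻¹ * n * gv R v₀ ∈ NN L R := by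
  unfold NN at hn
  induction hn using Subgroup.closure_induction with
  | mem x hx =>
    obtain ⟨v, w, hvw, rfl⟩ := hx
    obtain ⟨p⟩ := hL.preconnected v₀ v
    have hc : gv R v * (gv R v * (gv R w)⁻¹) = (gv R v * (gv R w)⁻¹) * gv R v :=
      ((Commute.refl (gv R v)).mul_right (gv_comm hR hvw).inv_right).eq
    have : (gv R v₀)⁻¹ * (gv R v * (gv R w)⁻¹) * gv R v₀ =
        ((gv R v₀)⁻¹ * gv R v) * (gv R v * (gv R w)⁻¹) * ((gv R v)⁻¹ * gv R v₀) := by
      have e : ((gv R v₀)⁻¹ * gv R v) * (gv R v * (gv R w)⁻¹) * ((gv R v)⁻¹ * gv R v₀) =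
        (gv R v₀)⁻¹ * (gv R v * (gv R v * (gv R w)⁻¹)) * ((gv R v)⁻¹ * gv R v₀) := by group
      rw [e, hc]
      group
    rw [this]
    exact Subgroup.mul_mem _ (Subgroup.mul_mem _ (NN_walk' hR p) (NN_mem hvw))
      (NN_walk' hR p.reverse)
  | one => rw [mul_one, inv_mul_cancel]; exact Subgroup.one_mem _
  | mul a b _ _ iha ihb =>
    have : (gv R v₀)⁻¹ * (a * b) * gv R v₀ =
        ((gv R v₀)⁻¹ * a * gv R v₀) * ((gv R v₀)⁻¹ * b * gv R v₀) := by group
    rw [this]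
    exact Subgroup.mul_mem _ iha ihb
  | inv a _ iha =>
    have : (gv R v₀)⁻¹ * a⁻¹ * gv R v₀ = ((gv R v₀)⁻¹ * a * gv R v₀)⁻¹ := by group
    rw [this]
    exact Subgroup.inv_mem _ iha

theorem NN_zconj (hL : L.Connected) (hR : Rel L R) (v₀ : V) (j : ℤ) :
    ∀ n ∈ NN L R, gv R v₀ ^ j * n * gv R v₀ ^ (-j) ∈ NN L R := by
  induction j using Int.induction_on with
  | zero => intro n hn; simpa using hn
  | succ i ih =>
    intro n hn
    have : gv R v₀ ^ ((i : ℤ) + 1) * n * gv R v₀ ^ (-((i : ℤ) + 1)) =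
        gv R v₀ ^ (i : ℤ) * (gv R v₀ * n * (gv R v₀)⁻¹) * gv R v₀ ^ (-(i : ℤ)) := by
      rw [zpow_add, zpow_one, neg_add, zpow_add, zpow_neg_one, zpow_neg]
      have hc : (gv R v₀ ^ (i : ℤ))⁻¹ * (gv R v₀)⁻¹ = (gv R v₀)⁻¹ * (gv R v₀ ^ (i : ℤ))⁻¹ := by
        rw [← mul_inv_rev, ← mul_inv_rev]
        congr 1
        exact ((Commute.refl (gv R v₀)).zpow_right _).eq
      rw [hc]
      simp only [mul_assoc]
    rw [this]
    exact ih _ (NN_conj hL hR v₀ n hn)
  | pred i ih =>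
    intro n hn
    have : gv R v₀ ^ (-(i : ℤ) - 1) * n * gv R v₀ ^ (-(-(i : ℤ) - 1)) =
        gv R v₀ ^ (-(i : ℤ)) * ((gv R v₀)⁻¹ * n * gv R v₀) * gv R v₀ ^ (-(-(i : ℤ))) := by
      have e1 : gv R v₀ ^ (-(i : ℤ) - 1) = gv R v₀ ^ (-(i : ℤ)) * (gv R v₀)⁻¹ := by
        rw [sub_eq_add_neg, zpow_add, zpow_neg_one]
      have e2 : gv R v₀ ^ (-(-(i : ℤ) - 1)) = gv R v₀ * gv R v₀ ^ (-(-(i : ℤ))) := by
        have : -(-(i : ℤ) - 1) = 1 + (-(-(i : ℤ))) := by ring
        rw [this, zpow_add, zpow_one]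
      rw [e1, e2]
      simp only [mul_assoc]
    rw [this]
    exact ih _ (NN_conj' hL hR v₀ n hn)

theorem NN_all (hL : L.Connected) (hR : Rel L R) (v₀ : V) (x : PresentedGroup R) :
    ∃ j : ℤ, x * gv R v₀ ^ (-j) ∈ NN L R := by
  have hx : x ∈ Subgroup.closure (Set.range (PresentedGroup.of : V → PresentedGroup R)) := by
    rw [PresentedGroup.closure_range_of]
    trivial
  induction hx using Subgroup.closure_induction with
  | mem x hx =>
    obtain ⟨v, rfl⟩ := hx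
    obtain ⟨p⟩ := hL.preconnected v v₀
    refine ⟨1, ?_⟩
    rw [zpow_neg_one]
    exact NN_walk p
  | one => exact ⟨0, by simp⟩
  | mul a b _ _ iha ihb =>
    obtain ⟨j, hj⟩ := iha
    obtain ⟨j', hj'⟩ := ihb
    refine ⟨j + j', ?_⟩
    have h1 := NN_zconj hL hR v₀ j _ hj'
    have : a * b * gv R v₀ ^ (-(j + j')) = (a * gv R v₀ ^ (-j)) *
        (gv R v₀ ^ j * (b * gv R v₀ ^ (-j')) * gv R v₀ ^ (-j)) := by
      have e : -(j + j') = -j' + -j := by ring
      rw [e, zpow_add, zpow_neg _ j]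
      group
    rw [this]
    exact Subgroup.mul_mem _ hj h1
  | inv a _ iha =>
    obtain ⟨j, hj⟩ := iha
    refine ⟨-j, ?_⟩
    have h1 := NN_zconj hL hR v₀ (-j) _ (Subgroup.inv_mem _ hj)
    have : a⁻¹ * gv R v₀ ^ (-(-j)) = gv R v₀ ^ (-j) * (a * gv R v₀ ^ (-j))⁻¹ *
        gv R v₀ ^ (-(-j)) := by
      group
    rw [this]
    exact h1

end

open Classical in
theorem nonempty_BB {V : Type} [Fintype V] (L : SimpleGraph V) (hL : L.Connected)
    (R : Set (FreeGroup V)) (hR : Rel L R) (χ : PresentedGroup R →* Multiplicative ℤ)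
    (hχ : ∀ v, χ (PresentedGroup.of v) = Multiplicative.ofAdd 1) :
    ∃ B : BB L χ.ker, ∀ v w, ((B.e (v, w) : χ.ker) : PresentedGroup R) =
      PresentedGroup.of v * (PresentedGroup.of w)⁻¹ := by
  obtain ⟨v₀⟩ := hL.nonempty
  have hχ' : ∀ v, χ (gv R v) = Multiplicative.ofAdd 1 := hχ
  have hs : ∀ (k : ℕ) (v w : V), gv R v ^ k * (gv R w)⁻¹ ^ k ∈ χ.ker := by
    intro k v w
    rw [MonoidHom.mem_ker, map_mul, map_pow, map_pow, map_inv, hχ', hχ', inv_pow, mul_inv_cancel]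
  have hpsi : ∀ x : V, ∀ r ∈ R,
      FreeGroup.lift (fun w => if w = x then Multiplicative.ofAdd (1 : ℤ) else 1) r = 1 :=
    fun x r hr => hR.exp r hr x
  have hpof : ∀ x w : V, PresentedGroup.toGroup (hpsi x) (gv R w) =
      if w = x then Multiplicative.ofAdd (1 : ℤ) else 1 :=
    fun x w => PresentedGroup.toGroup.of (hpsi x)
  have hNle : NN L R ≤ χ.ker := by
    unfold NN
    rw [Subgroup.closure_le]
    rintro _ ⟨v, w, _, rfl⟩
    have := hs 1 v w
    rwa [pow_one, pow_one] at this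
  refine ⟨{ s := fun k v w => ⟨gv R v ^ k * (gv R w)⁻¹ ^ k, hs k v w⟩
            mul := ?_
            pow := ?_
            psi := fun x => (PresentedGroup.toGroup (hpsi x)).comp χ.ker.subtype
            psi_self := ?_
            psi_ne := ?_
            gen := ?_ }, ?_⟩
  · intro k v w u
    apply Subtype.ext
    change gv R v ^ k * (gv R w)⁻¹ ^ k * (gv R w ^ k * (gv R u)⁻¹ ^ k) =
      gv R v ^ k * (gv R u)⁻¹ ^ k
    rw [inv_pow, inv_pow]
    group
  · intro k v w hvw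
    apply Subtype.ext
    change gv R v ^ k * (gv R w)⁻¹ ^ k = (gv R v ^ 1 * (gv R w)⁻¹ ^ 1) ^ k
    rw [pow_one, pow_one, (gv_comm hR hvw).inv_right.mul_pow]
  · intro x k w hxw
    change PresentedGroup.toGroup (hpsi x) (gv R x ^ k * (gv R w)⁻¹ ^ k) = _
    rw [map_mul, map_pow, map_pow, map_inv, hpof, hpof, if_pos rfl, if_neg hxw.symm, inv_one,
      one_pow, mul_one, ← ofAdd_nsmul]
    simp
  · intro x k v w hxv hxw
    change PresentedGroup.toGroup (hpsi x) (gv R v ^ k * (gv R w)⁻¹ ^ k) = _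
    rw [map_mul, map_pow, map_pow, map_inv, hpof, hpof, if_neg hxv.symm, if_neg hxw.symm, inv_one,
      one_pow, mul_one]
  · rw [eq_top_iff]
    rintro ⟨x, hx⟩ _
    have hxN : x ∈ NN L R := by
      obtain ⟨j, hj⟩ := NN_all hL hR v₀ x
      have h1 : χ (x * gv R v₀ ^ (-j)) = 1 := hNle hj
      rw [map_mul, map_zpow, hχ', MonoidHom.mem_ker.1 hx, one_mul, ← ofAdd_zsmul] at h1
      have h2 : j = 0 := by
        have := congrArg Multiplicative.toAdd h1
        simpa using this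
      rw [h2, neg_zero, zpow_zero, mul_one] at hj
      exact hj
    have hmap : NN L R = Subgroup.map χ.ker.subtype (Subgroup.closure {h : χ.ker |
        ∃ v w, L.Adj v w ∧ h = ⟨gv R v ^ 1 * (gv R w)⁻¹ ^ 1, hs 1 v w⟩}) := by
      rw [MonoidHom.map_closure]
      unfold NN
      congr 1
      ext y
      constructor
      · rintro ⟨v, w, hvw, rfl⟩
        exact ⟨⟨gv R v ^ 1 * (gv R w)⁻¹ ^ 1, hs 1 v w⟩, ⟨v, w, hvw, rfl⟩, by simp⟩
      · rintro ⟨_, ⟨v, w, hvw, rfl⟩, rfl⟩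
        exact ⟨v, w, hvw, by simp⟩
    rw [hmap] at hxN
    obtain ⟨y, hy, hyx⟩ := hxN
    have : y = ⟨x, hx⟩ := Subtype.ext hyx
    rw [← this]
    exact hy
  · intro v w
    change gv R v ^ 1 * (gv R w)⁻¹ ^ 1 = gv R v * (gv R w)⁻¹
    rw [pow_one, pow_one]

/-- The darts have infinite order. -/
theorem BB.e_pow_ne {V : Type} {L : SimpleGraph V} {H : Type} [Group H] (B : BB L H)
    (c : V × V) (hc : c.1 ≠ c.2) (k : ℕ) (hk : 0 < k) : B.e c ^ k ≠ 1 := by
  intro h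
  have h1 := congrArg (B.psi c.1) h
  unfold BB.e at h1
  rw [map_pow, B.psi_self _ _ _ hc, map_one, ← ofAdd_nsmul] at h1
  have h2 := congrArg Multiplicative.toAdd h1
  simp at h2
  omega

end RGB
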