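import Pool.Agent.RGB.Defs

set_option autoImplicit false

/-!
# RGB module ORB: invariant functions (about 100 lines)

`inv X g` is the space of the `g`-invariant functions on the finite set `X`. Its dimension is
at most (equal to) the number of orbits of `g` (restriction to a set `S` of representatives of the
orbits is injective). The orbits with at least `N` points: their number is `≤ |X| / N`. The
orbits with less than `N` points: every point `x` of such an orbit satisfies `g ^ j • x = x` for some
`1 ≤ j < N`, so their number is `≤ ∑_{1 ≤ j < N} fx X (g ^ j)`.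

(Suggestion: `S` = image of `Quotient.out` for the orbit relation of `Subgroup.zpowers g`, or choose a
maximal set `S` such that no two points are in one orbit. For `x ∈ S` with `g ^ j • x ≠ x` for all
`1 ≤ j < N` the points `g ^ i • x`, `0 ≤ i < N` are distinct, and they are distinct for different
`x ∈ S`: the map `S' × Fin N → X` is injective.)
-/

namespace RGB

variable {H : Type} [Group H]

/-- The invariant functions. -/
def inv (X : Type) [MulAction H X] (g : H) : Submodule ℚ (X → ℚ) where
  carrier := {u | ∀ x, u (g • x) = u x}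
  zero_mem' := fun _ => rfl
  add_mem' := fun {a b} ha hb x => by
    show a (g • x) + b (g • x) = a x + b x
    rw [ha x, hb x]
  smul_mem' := fun r a ha x => by
    show r • a (g • x) = r • a x
    rw [ha x]

theorem inv_zpowers {X : Type} [MulAction H X] (g : H) (u : X → ℚ) (hu : u ∈ inv X g) (h : H)
    (hh : h ∈ Subgroup.zpowers g) (x : X) : u (h • x) = u x := by
  let K : Subgroup H :=
    { carrier := {h | ∀ x, u (h • x) = u x}
      mul_mem' := fun {a b} ha hb x => by rw [mul_smul, ha, hb]
      one_mem' := fun x => by rw [one_smul]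
      inv_mem' := fun {a} ha x => by rw [← ha (a⁻¹ • x), smul_inv_smul] }
  have h1 : Subgroup.zpowers g ≤ K := by
    rw [Subgroup.zpowers_le]
    exact hu
  exact h1 hh x

theorem finrank_inv_le (X : Type) [Finite X] [MulAction H X] (g : H) (N : ℕ) (hN : 0 < N) :
    (Module.finrank ℚ (inv X g) : ℝ) ≤
      Nat.card X / N + ∑ j ∈ Finset.Ico 1 N, (fx X (g ^ j) : ℝ) := by
  classical
  have : Fintype X := Fintype.ofFinite X
  let s := MulAction.orbitRel (Subgroup.zpowers g) X
  let Q := Quotient s
  have : Finite Q := Quotient.finite _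
  have : Fintype Q := Fintype.ofFinite Q
  have hout : ∀ x : X, ∃ k ∈ Subgroup.zpowers g, k • (Quotient.mk s x).out = x := by
    intro x
    have h1 : s x (Quotient.mk s x).out := Quotient.exact (Quotient.out_eq _).symm
    rw [MulAction.orbitRel_apply, MulAction.mem_orbit_iff] at h1
    obtain ⟨k, hk⟩ := h1
    exact ⟨k.1, k.2, hk⟩
  have hsame : ∀ x y : X, ∀ k ∈ Subgroup.zpowers g, k • y = x →
      Quotient.mk s x = Quotient.mk s y := by
    intro x y k hk h
    refine Quotient.sound ?_
    show s x y
    rw [MulAction.orbitRel_apply, MulAction.mem_orbit_iff]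
    exact ⟨⟨k, hk⟩, h⟩
  -- the dimension is at most the number of orbits
  let T : inv X g →ₗ[ℚ] (Q → ℚ) :=
    { toFun := fun u q => u.1 q.out
      map_add' := fun _ _ => rfl
      map_smul' := fun _ _ => rfl }
  have hT : Function.Injective T := by
    intro u w h
    refine Subtype.ext (funext fun x => ?_)
    obtain ⟨k, hk, hx⟩ := hout x
    have h1 := congrFun h (Quotient.mk s x)
    have h2 := inv_zpowers g u.1 u.2 k hk (Quotient.mk s x).out
    have h3 := inv_zpowers g w.1 w.2 k hk (Quotient.mk s x).out
    rw [hx] at h2 h3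
    rw [h2, h3]
    exact h1
  have h1 : Module.finrank ℚ (inv X g) ≤ Fintype.card Q := by
    rw [← Module.finrank_fintype_fun_eq_card ℚ (η := Q)]
    exact LinearMap.finrank_le_finrank_of_injective hT
  -- short and long orbits
  obtain ⟨P, hP⟩ : ∃ P : Q → Prop, ∀ q, P q ↔ ∀ j ∈ Finset.Ico 1 N, g ^ j • q.out ≠ q.out :=
    ⟨_, fun q => Iff.rfl⟩
  let long : Finset Q := Finset.univ.filter fun q => P q
  let short : Finset Q := Finset.univ.filter fun q => ¬ P q
  have h2 : long.card + short.card = Fintype.card Q := by
    rw [← Finset.card_univ]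
    exact Finset.card_filter_add_card_filter_not _
  have h3 : short.card ≤ ∑ j ∈ Finset.Ico 1 N, fx X (g ^ j) := by
    have k1 : short.card ≤ ((Finset.Ico 1 N).biUnion fun j =>
        Finset.univ.filter fun x : X => g ^ j • x = x).card := by
      refine Finset.card_le_card_of_injOn (fun q => q.out) ?_ ?_
      · intro q hq
        have hq' := (Finset.mem_filter.1 hq).2
        rw [hP] at hq'
        push Not at hq'
        obtain ⟨j, hj, hjq⟩ := hq'
        exact Finset.mem_coe.2 (Finset.mem_biUnion.2 ⟨j, hj, Finset.mem_filter.2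
          ⟨Finset.mem_univ _, hjq⟩⟩)
      · intro q _ q' _ h
        have : q.out = q'.out := h
        rw [← Quotient.out_eq q, ← Quotient.out_eq q', this]
    refine k1.trans (Finset.card_biUnion_le.trans (Finset.sum_le_sum fun j _ => ?_))
    rw [fx, Nat.card_eq_fintype_card, Fintype.card_subtype]
  have h4 : long.card * N ≤ Nat.card X := by
    rw [Nat.card_eq_fintype_card, ← Finset.card_univ (α := X)]
    have k1 : long.card * N = (long ×ˢ Finset.range N).card := by
      rw [Finset.card_product, Finset.card_range]
    rw [k1]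
    refine Finset.card_le_card_of_injOn (fun a => g ^ a.2 • a.1.out)
      (fun a _ => Finset.mem_coe.2 (Finset.mem_univ _)) ?_
    rintro ⟨q, i⟩ ha ⟨q', i'⟩ ha' h
    have hq := (Finset.mem_product.1 (Finset.mem_coe.1 ha))
    have hq' := (Finset.mem_product.1 (Finset.mem_coe.1 ha'))
    have h : g ^ i • q.out = g ^ i' • q'.out := h
    have e1 : q = q' := by
      rw [← Quotient.out_eq q, ← Quotient.out_eq q']
      have a1 := hsame (g ^ i • q.out) q.out (g ^ i) (Subgroup.npow_mem_zpowers g i) rfl
      have a2 := hsame (g ^ i' • q'.out) q'.out (g ^ i') (Subgroup.npow_mem_zpowers g i') rfl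
      rw [← h] at a2
      exact a1.symm.trans a2
    subst e1
    have hlong := (hP q).1 (Finset.mem_filter.1 hq.1).2
    have key : ∀ a b : ℕ, a < b → b < N → g ^ a • q.out ≠ g ^ b • q.out := by
      intro a b hab hb hcon
      refine hlong (b - a) (Finset.mem_Ico.2 ⟨by omega, by omega⟩) ?_
      have : g ^ b = g ^ a * g ^ (b - a) := by rw [← pow_add]; congr 1; omega
      rw [this, mul_smul] at hcon
      exact (smul_left_cancel _ hcon).symm
    have hi := Finset.mem_range.1 hq.2
    have hi' := Finset.mem_range.1 hq'.2
    rcases lt_trichotomy i i' with h5 | h5 | h5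
    · exact absurd h (key i i' h5 hi')
    · rw [h5]
    · exact absurd h.symm (key i' i h5 hi)
  have h5 : (long.card : ℝ) ≤ Nat.card X / N := by
    rw [le_div_iff₀ (by exact_mod_cast hN)]
    exact_mod_cast h4
  have h6 : (short.card : ℝ) ≤ ∑ j ∈ Finset.Ico 1 N, (fx X (g ^ j) : ℝ) := by
    exact_mod_cast h3
  have h7 : (Module.finrank ℚ (inv X g) : ℝ) ≤ long.card + short.card := by
    rw [← h2] at h1
    exact_mod_cast h1
  linarith

end RGB
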