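import Pool.Agent.RGB.Low2a
import Pool.Agent.RGB.Comb
import Pool.Agent.RGB.Orb

set_option autoImplicit false

/-!
# RGB module LOW2B: the dimension count
-/

namespace RGB

variable {V : Type}

/-- The components of `L - v`. -/
abbrev Cmp (L : SimpleGraph V) (v : V) : Type := (L.induce {w | w ≠ v}).ConnectedComponent

/-- The parameters. -/
abbrev Par (L : SimpleGraph V) (X : Type) : Type := (v : V) → Cmp L v → X → ℚ

/-- The function of a dart. -/
noncomputable def fd [Fintype V] (L : SimpleGraph V) (X : Type) (d : Dart' L) :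
    Par L X →ₗ[ℚ] (X → ℚ) :=
  ∑ v, (LinearMap.proj (cpt L v d.1.1 d.1.2 d.2)) ∘ₗ
    (LinearMap.proj (R := ℚ) (φ := fun v => Cmp L v → X → ℚ) v)

theorem fd_apply [Fintype V] (L : SimpleGraph V) (X : Type) (d : Dart' L) (u : Par L X) :
    fd L X d u = ∑ v, u v (cpt L v d.1.1 d.1.2 d.2) := by
  simp [fd]

/-- If all functions of the darts are the same then the parameters do not depend on the
components. -/
theorem const_of_fd [Fintype V] (L : SimpleGraph V) (hL : L.Connected) (X : Type) (u : Par L X)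
    (f : X → ℚ) (h : ∀ d, fd L X d u = f) (v : V) (C C' : Cmp L v) : u v C = u v C' := by
  classical
  obtain ⟨w, hw, ha, hC⟩ := exists_nbr L hL v C
  obtain ⟨w', hw', ha', hC'⟩ := exists_nbr L hL v C'
  have h1 := h ⟨(v, w), ha⟩
  have h2 := h ⟨(v, w'), ha'⟩
  rw [← h2, fd_apply, fd_apply, ← Finset.add_sum_erase _ _ (Finset.mem_univ v),
    ← Finset.add_sum_erase (a := v) _ _ (Finset.mem_univ v)] at h1
  have h3 : ∑ x ∈ Finset.univ.erase v, u x (cpt L x v w ha) =
      ∑ x ∈ Finset.univ.erase v, u x (cpt L x v w' ha') := by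
    refine Finset.sum_congr rfl fun x hx => ?_
    have hxv : v ≠ x := (Finset.ne_of_mem_erase hx).symm
    rw [cpt_left L x v w ha hxv, cpt_left L x v w' ha' hxv]
  have h4 : u v (cpt L v v w ha) = u v (cpt L v v w' ha') := by
    have h5 : u v (cpt L v v w ha) + ∑ x ∈ Finset.univ.erase v, u x (cpt L x v w ha) =
        u v (cpt L v v w' ha') + ∑ x ∈ Finset.univ.erase v, u x (cpt L x v w' ha') := h1
    rw [h3] at h5
    exact add_right_cancel h5
  rw [cpt_right L v v w ha hw, cpt_right L v v w' ha' hw', hC, hC'] at h4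
  exact h4

theorem dim_count [Fintype V] [Nontrivial V] (L : SimpleGraph V) (hL : L.Connected)
    {K : Type} [Group K] (Γ : Subgroup K) [Γ.FiniteIndex]
    (hfg : ∃ s : Finset Γ, Subgroup.closure (s : Set Γ) = ⊤) [Fintype (Dart' L)]
    (e : Dart' L → K)
    (c : ∀ v, Cmp L v → K → (K ⧸ Γ) → ((K ⧸ Γ → ℚ) →ₗ[ℚ] ℚ))
    (hc : ∀ v C g h x, c v C (g * h) x = c v C g (h • x) + c v C h x)
    (h1 : ∀ v C (d : Dart' L), cpt L v d.1.1 d.1.2 d.2 = C →
      ∀ x u, c v C (e d) x u = u (e d • x) - u x)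
    (h2 : ∀ v C (d : Dart' L), cpt L v d.1.1 d.1.2 d.2 ≠ C → ∀ x u, c v C (e d) x u = 0) :
    (∑ v, cc L v) * Γ.index ≤ rk Γ + Fintype.card V * Γ.index +
      ∑ d, Module.finrank ℚ (inv (K ⧸ Γ) (e d)) := by
  classical
  have : Finite (K ⧸ Γ) := inferInstance
  have : Fintype (K ⧸ Γ) := Fintype.ofFinite (K ⧸ Γ)
  have hfin : ∀ v, Finite (Cmp L v) := fun v => Quot.finite _
  have : ∀ v, Fintype (Cmp L v) := fun v => Fintype.ofFinite _
  have hne : ∀ v, Nonempty (Cmp L v) := by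
    intro v
    obtain ⟨w, hw⟩ := exists_ne v
    exact ⟨(L.induce {w | w ≠ v}).connectedComponentMk ⟨w, hw⟩⟩
  -- the total cocycle
  let T : K → (K ⧸ Γ) → (Par L (K ⧸ Γ) →ₗ[ℚ] ℚ) := fun k x => ∑ v, ∑ C, (c v C k x) ∘ₗ
    (LinearMap.proj C) ∘ₗ (LinearMap.proj (R := ℚ) (φ := fun v => Cmp L v → (K ⧸ Γ) → ℚ) v)
  have hTapp : ∀ k x u, T k x u = ∑ v, ∑ C, c v C k x (u v C) := by
    intro k x u
    simp [T]
  have hT : ∀ g h x, T (g * h) x = T g (h • x) + T h x := by
    intro g h x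
    refine LinearMap.ext fun u => ?_
    rw [LinearMap.add_apply, hTapp, hTapp, hTapp, ← Finset.sum_add_distrib]
    refine Finset.sum_congr rfl fun v _ => ?_
    rw [← Finset.sum_add_distrib]
    refine Finset.sum_congr rfl fun C _ => ?_
    rw [hc, LinearMap.add_apply]
  have hTe : ∀ d x u, T (e d) x u = fd L (K ⧸ Γ) d u (e d • x) - fd L (K ⧸ Γ) d u x := by
    intro d x u
    rw [hTapp, fd_apply, Finset.sum_apply, Finset.sum_apply, ← Finset.sum_sub_distrib]
    refine Finset.sum_congr rfl fun v _ => ?_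
    rw [Finset.sum_eq_single (cpt L v d.1.1 d.1.2 d.2)]
    · exact h1 v _ d rfl x _
    · intro C _ hC
      exact h2 v C d hC.symm x _
    · intro h
      exact absurd (Finset.mem_univ _) h
  -- generators
  obtain ⟨s, hs1, hs2⟩ : ∃ s : Finset Γ, s.card = rk Γ ∧ Subgroup.closure (s : Set Γ) = ⊤ := by
    have : rk Γ ∈ {k : ℕ | ∃ s : Finset Γ, s.card = k ∧ Subgroup.closure (s : Set Γ) = ⊤} := by
      obtain ⟨s, hs⟩ := hfg
      exact Nat.sInf_mem ⟨s.card, s, rfl, hs⟩
    exact this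
  let x₀ : (K ⧸ Γ) := QuotientGroup.mk 1
  have hx₀ : ∀ γ : Γ, (γ : K) • x₀ = x₀ := by
    intro γ
    show QuotientGroup.mk ((γ : K) * 1) = (QuotientGroup.mk 1 : K ⧸ Γ)
    rw [QuotientGroup.eq]
    simp
  let A : Par L (K ⧸ Γ) →ₗ[ℚ] (s → ℚ) := LinearMap.pi fun γ => T ((γ : Γ) : K) x₀
  let N : Submodule ℚ (Par L (K ⧸ Γ)) := LinearMap.ker A
  have hN : ∀ u ∈ N, ∀ γ : Γ, T (γ : K) x₀ u = 0 := by
    intro u hu γ
    have hγ : γ ∈ Subgroup.closure (s : Set Γ) := by rw [hs2]; trivial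
    have hone : T 1 x₀ u = 0 := by
      have := congrArg (fun f => f u) (hT 1 1 x₀)
      simp only [mul_one, one_smul, LinearMap.add_apply] at this
      exact left_eq_add.1 this
    induction hγ using Subgroup.closure_induction with
    | mem γ hγ =>
      have h3 : A u = 0 := hu
      exact congrFun h3 ⟨γ, hγ⟩
    | one => exact hone
    | mul a b _ _ iha ihb =>
      have := congrArg (fun f => f u) (hT (a : K) (b : K) x₀)
      simp only [LinearMap.add_apply] at this
      rw [hx₀, iha, ihb, add_zero] at this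
      exact this
    | inv a _ iha =>
      have := congrArg (fun f => f u) (hT (a : K)⁻¹ (a : K) x₀)
      simp only [LinearMap.add_apply] at this
      rw [hx₀, inv_mul_cancel, hone, iha, add_zero] at this
      exact this.symm
  let gx : (K ⧸ Γ) → K := fun x => Quotient.out x
  have hgx : ∀ x, gx x • x₀ = x := by
    intro x
    show QuotientGroup.mk (gx x * 1) = x
    rw [mul_one]
    exact Quotient.out_eq x
  let b : Par L (K ⧸ Γ) →ₗ[ℚ] ((K ⧸ Γ) → ℚ) := LinearMap.pi fun x => T (gx x) x₀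
  have hb : ∀ u ∈ N, ∀ k x, T k x u = b u (k • x) - b u x := by
    intro u hu k x
    have h3 := congrArg (fun f => f u) (hT k (gx x) x₀)
    simp only [LinearMap.add_apply] at h3
    rw [hgx] at h3
    have h4 : (gx (k • x))⁻¹ * (k * gx x) ∈ Γ := by
      have h5 : (k * gx x) • x₀ = gx (k • x) • x₀ := by rw [mul_smul, hgx, hgx]
      have h6 : (QuotientGroup.mk (gx (k • x) * 1) : K ⧸ Γ) = QuotientGroup.mk (k * gx x * 1) :=
        h5.symm
      rw [QuotientGroup.eq, mul_one, mul_one] at h6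
      exact h6
    have h7 := congrArg (fun f => f u) (hT (gx (k • x)) ((gx (k • x))⁻¹ * (k * gx x)) x₀)
    simp only [LinearMap.add_apply] at h7
    rw [mul_inv_cancel_left] at h7
    have h8 := hx₀ ⟨_, h4⟩
    have h9 := hN u hu ⟨_, h4⟩
    change ((gx (k • x))⁻¹ * (k * gx x)) • x₀ = x₀ at h8
    change T ((gx (k • x))⁻¹ * (k * gx x)) x₀ u = 0 at h9
    rw [h8, h9, add_zero] at h7
    have h10 : b u (k • x) = T (gx (k • x)) x₀ u := rfl
    have h11 : b u x = T (gx x) x₀ u := rfl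
    rw [h10, h11, ← h7, h3]
    ring
  have hinv : ∀ (d : Dart' L) (u : N), ((fd L (K ⧸ Γ) d - b) ∘ₗ N.subtype) u ∈ inv (K ⧸ Γ) (e d) := by
    intro d u x
    show fd L (K ⧸ Γ) d u.1 (e d • x) - b u.1 (e d • x) = fd L (K ⧸ Γ) d u.1 x - b u.1 x
    have h3 := hTe d x u.1
    have h4 := hb u.1 u.2 (e d) x
    rw [h3] at h4
    linarith
  let C₀ : ∀ v, Cmp L v := fun v => Classical.choice (hne v)
  let ψ : N →ₗ[ℚ] ((V → (K ⧸ Γ) → ℚ) × ((d : Dart' L) → inv (K ⧸ Γ) (e d))) :=
    LinearMap.prod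
      (LinearMap.pi fun v => (LinearMap.proj (C₀ v)) ∘ₗ
        (LinearMap.proj (R := ℚ) (φ := fun v => Cmp L v → (K ⧸ Γ) → ℚ) v) ∘ₗ N.subtype)
      (LinearMap.pi fun d => LinearMap.codRestrict (inv (K ⧸ Γ) (e d)) ((fd L (K ⧸ Γ) d - b) ∘ₗ N.subtype)
        (hinv d))
  have hψ : Function.Injective ψ := by
    rw [← LinearMap.ker_eq_bot, LinearMap.ker_eq_bot']
    intro u hu
    have e1 : ∀ v, u.1 v (C₀ v) = 0 := by
      intro v
      exact congrFun (congrArg Prod.fst hu) v
    have e2 : ∀ d, fd L (K ⧸ Γ) d u.1 = b u.1 := by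
      intro d
      have h3 := congrFun (congrArg Prod.snd hu) d
      have h4 : fd L (K ⧸ Γ) d u.1 - b u.1 = 0 := congrArg Subtype.val h3
      exact sub_eq_zero.1 h4
    refine Subtype.ext (funext fun v => funext fun C => ?_)
    rw [const_of_fd L hL (K ⧸ Γ) u.1 (b u.1) e2 v C (C₀ v), e1]
    rfl
  have hindex : Γ.index = Fintype.card (K ⧸ Γ) := by
    rw [Subgroup.index, Nat.card_eq_fintype_card]
  have f1 : Module.finrank ℚ (Par L (K ⧸ Γ)) = (∑ v, cc L v) * Γ.index := by
    rw [Module.finrank_pi_fintype, Finset.sum_mul]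
    refine Finset.sum_congr rfl fun v _ => ?_
    rw [Module.finrank_pi_fintype, Finset.sum_const, Finset.card_univ, smul_eq_mul,
      Module.finrank_fintype_fun_eq_card, hindex, cc, Nat.card_eq_fintype_card]
  have f2 : Module.finrank ℚ (s → ℚ) = rk Γ := by
    rw [Module.finrank_fintype_fun_eq_card, Fintype.card_coe, hs1]
  have f3 := LinearMap.finrank_range_add_finrank_ker A
  have f4 : Module.finrank ℚ (LinearMap.range A) ≤ rk Γ := by
    rw [← f2]
    exact Submodule.finrank_le _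
  have f5 : Module.finrank ℚ N ≤ Fintype.card V * Γ.index +
      ∑ d, Module.finrank ℚ (inv (K ⧸ Γ) (e d)) := by
    have f6 := LinearMap.finrank_le_finrank_of_injective hψ
    have f8 : Module.finrank ℚ (V → (K ⧸ Γ) → ℚ) = Fintype.card V * Γ.index := by
      rw [Module.finrank_pi_fintype, Finset.sum_const, Finset.card_univ, smul_eq_mul,
        Module.finrank_fintype_fun_eq_card, ← hindex]
    have f9 : Module.finrank ℚ ((d : Dart' L) → inv (K ⧸ Γ) (e d)) =
        ∑ d, Module.finrank ℚ (inv (K ⧸ Γ) (e d)) := Module.finrank_pi_fintype ℚ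
    rw [Module.finrank_prod, f8, f9] at f6
    exact f6
  have f7 : Module.finrank ℚ (LinearMap.ker A) = Module.finrank ℚ N := rfl
  omega

end RGB
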