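import Pool.Agent.RGB.Upper
import Pool.Agent.RGB.Low2b
import Pool.Agent.RGB.Grp

set_option autoImplicit false

/-!
# RGB module FINAL: the rank gradient
-/

namespace RGB

open Filter Topology

variable {V : Type}

theorem one_le_finrank_inv {H : Type} [Group H] (X : Type) [Finite X] [Nonempty X]
    [MulAction H X] (g : H) : 1 ≤ Module.finrank ℚ (inv X g) := by
  have h1 : Module.finrank ℚ (inv X g) ≠ 0 := by
    intro h
    have h2 : ∀ u : inv X g, u = 0 := by
      have := Module.finrank_zero_iff.1 h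
      intro u
      exact Subsingleton.elim _ _
    have h3 := h2 ⟨fun _ => 1, fun _ => rfl⟩
    obtain ⟨x⟩ := ‹Nonempty X›
    have h4 := congrFun (congrArg Subtype.val h3) x
    exact one_ne_zero h4
  omega

theorem main [Fintype V] [Nontrivial V] (L : SimpleGraph V) (hL : L.Connected)
    (R : Set (FreeGroup V)) (hR : Rel L R) (χ : PresentedGroup R →* Multiplicative ℤ)
    (hχ : ∀ v, χ (PresentedGroup.of v) = Multiplicative.ofAdd 1) :
    Group.FG χ.ker ∧ ∀ Γ : ℕ → Subgroup χ.ker, (∀ n, (Γ n).FiniteIndex) →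
      (∀ γ : χ.ker, γ ≠ 1 →
        Tendsto (fun n => (fx (χ.ker ⧸ Γ n) γ : ℝ) / ((Γ n).index : ℝ)) atTop (𝓝 0)) →
      Tendsto (fun n => ((rk (Γ n) : ℝ) - 1) / ((Γ n).index : ℝ)) atTop
        (𝓝 (∑ v, ((cc L v : ℝ) - 1))) := by
  classical
  obtain ⟨B, hB⟩ := nonempty_BB L hL R hR χ hχ
  have hFG : Group.FG χ.ker := by
    rw [Group.fg_def, Subgroup.fg_iff]
    refine ⟨{h | ∃ v w, L.Adj v w ∧ h = B.s 1 v w}, B.gen, ?_⟩
    refine (Set.finite_range fun c : V × V => B.s 1 c.1 c.2).subset ?_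
    rintro h ⟨v, w, _, rfl⟩
    exact ⟨(v, w), rfl⟩
  refine ⟨hFG, ?_⟩
  intro Γ hΓ hF
  have hidx : ∀ n, (0 : ℝ) < (Γ n).index := fun n => by
    have := (hΓ n).index_ne_zero
    have h2 : 0 < (Γ n).index := Nat.pos_of_ne_zero this
    exact_mod_cast h2
  set c : ℝ := ∑ v, ((cc L v : ℝ) - 1) with hc
  rw [Metric.tendsto_nhds]
  intro ε hε
  -- upper bound
  have hup : ∀ᶠ n in atTop, ((rk (Γ n) : ℝ) - 1) / ((Γ n).index : ℝ) < c + ε := by
    obtain ⟨E, hE1, hE2, hE3⟩ := exists_reps L hL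
    obtain ⟨F, hF1, τ, hτ, hup⟩ := rk_upper B E hE1 hE2 (ε / 2) (by positivity)
    have h1 : ∀ᶠ n in atTop, ∀ f ∈ F, (fx (χ.ker ⧸ Γ n) f : ℝ) / ((Γ n).index : ℝ) < τ := by
      rw [Filter.eventually_all_finset]
      intro f hf
      have hne : f ≠ 1 := fun h => hF1 (h ▸ hf)
      exact (hF f hne).eventually (gt_mem_nhds hτ)
    filter_upwards [h1] with n hn
    have := hΓ n
    have h2 := hup (Γ n) fun f hf => by
      have := (div_lt_iff₀ (hidx n)).1 (hn f hf)
      exact this.le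
    rw [div_lt_iff₀ (hidx n)]
    have h3 : (c + ε) * (Γ n).index - ((E.card : ℝ) + ε / 2 - 1) * (Γ n).index =
      (1 + c - E.card + ε / 2) * (Γ n).index := by ring
    have h4 : 0 < (1 + c - E.card + ε / 2) * ((Γ n).index : ℝ) := by
      refine mul_pos ?_ (hidx n)
      linarith
    nlinarith
  -- lower bound
  have hlow : ∀ᶠ n in atTop, c - ε < ((rk (Γ n) : ℝ) - 1) / ((Γ n).index : ℝ) := by
    have hDfin : Fintype (Dart' L) := inferInstance
    let e : Dart' L → χ.ker := fun d => B.e d.1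
    set D : ℝ := (Fintype.card (Dart' L) : ℝ) with hD
    have hD0 : 0 ≤ D := Nat.cast_nonneg _
    obtain ⟨N, hN⟩ := exists_nat_gt (8 * D / ε)
    have hN0 : 0 < N := by
      rcases Nat.eq_zero_or_pos N with h | h
      · subst h
        have : 0 ≤ 8 * D / ε := by positivity
        rw [Nat.cast_zero] at hN
        linarith
      · exact h
    have hN0' : (0 : ℝ) < N := by exact_mod_cast hN0
    have hDN : D / N ≤ ε / 8 := by
      rw [div_lt_iff₀ hε] at hN
      rw [div_le_iff₀ hN0']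
      nlinarith
    have hpow : ∀ (d : Dart' L) (j : ℕ), 0 < j → e d ^ j ≠ 1 := fun d j hj =>
      BB.e_pow_ne B d.1 d.2.ne j hj
    have h1 : Tendsto (fun n => ∑ d : Dart' L, ∑ j ∈ Finset.Ico 1 N,
        (fx (χ.ker ⧸ Γ n) (e d ^ j) : ℝ) / ((Γ n).index : ℝ)) atTop (𝓝 0) := by
      have h2 : (0 : ℝ) = ∑ d : Dart' L, ∑ j ∈ Finset.Ico 1 N, (0 : ℝ) := by simp
      rw [h2]
      refine tendsto_finsetSum _ fun d _ => tendsto_finsetSum _ fun j hj => ?_
      exact hF _ (hpow d j (by have := Finset.mem_Ico.1 hj; omega))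
    have h3 := h1.eventually (gt_mem_nhds (show (0 : ℝ) < ε / 8 by positivity))
    filter_upwards [h3] with n hn
    have := hΓ n
    have : Finite (χ.ker ⧸ Γ n) := inferInstance
    have hfg : ∃ s : Finset (Γ n), Subgroup.closure (s : Set (Γ n)) = ⊤ := by
      have : Group.FG (Γ n) := inferInstance
      exact Group.fg_def.1 this
    have hcoc : ∀ v (C : Cmp L v), ∃ c : χ.ker → (χ.ker ⧸ Γ n) → ((χ.ker ⧸ Γ n → ℚ) →ₗ[ℚ] ℚ),
      (∀ g h x, c (g * h) x = c g (h • x) + c h x) ∧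
      (∀ (a b : V) (hab : L.Adj a b) (e : χ.ker),
        (e : PresentedGroup R) = PresentedGroup.of a * (PresentedGroup.of b)⁻¹ →
        (cpt L v a b hab = C → ∀ x u, c e x u = u (e • x) - u x) ∧
        (cpt L v a b hab ≠ C → ∀ x u, c e x u = 0)) :=
      fun v C => exists_coc L R hR χ hχ (Γ n) v C
    choose co hco1 hco2 using hcoc
    have h4 := dim_count L hL (Γ n) hfg e co hco1
      (fun v C d h x u => (hco2 v C d.1.1 d.1.2 d.2 (e d) (hB _ _)).1 h x u)
      (fun v C d h x u => (hco2 v C d.1.1 d.1.2 d.2 (e d) (hB _ _)).2 h x u)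
    have h5 : ((∑ v, cc L v : ℕ) : ℝ) * ((Γ n).index : ℝ) ≤ rk (Γ n) +
        Fintype.card V * ((Γ n).index : ℝ) +
        ∑ d, (Module.finrank ℚ (inv (χ.ker ⧸ Γ n) (e d)) : ℝ) := by
      exact_mod_cast h4
    set S : ℝ := ∑ d, (Module.finrank ℚ (inv (χ.ker ⧸ Γ n) (e d)) : ℝ) with hS
    have hS1 : 1 ≤ S := by
      obtain ⟨v, w, hvw⟩ := exists_pair_ne V
      obtain ⟨w', hw'⟩ := exists_ne v
      have hadj : ∃ u, L.Adj v u := by
        obtain ⟨p⟩ := hL.preconnected v w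
        cases p with
        | nil => exact absurd rfl hvw
        | cons h p => exact ⟨_, h⟩
      obtain ⟨u, hu⟩ := hadj
      have h6 : (Module.finrank ℚ (inv (χ.ker ⧸ Γ n) (e ⟨(v, u), hu⟩)) : ℝ) ≤ S :=
        Finset.single_le_sum
          (f := fun d : Dart' L => (Module.finrank ℚ (inv (χ.ker ⧸ Γ n) (e d)) : ℝ))
          (fun d _ => Nat.cast_nonneg _) (Finset.mem_univ _)
      refine le_trans ?_ h6
      exact_mod_cast one_le_finrank_inv (χ.ker ⧸ Γ n) (e ⟨(v, u), hu⟩)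
    have hS2 : S ≤ ε / 4 * (Γ n).index := by
      have h6 : S ≤ ∑ d : Dart' L, (((Γ n).index : ℝ) / N +
          ∑ j ∈ Finset.Ico 1 N, (fx (χ.ker ⧸ Γ n) (e d ^ j) : ℝ)) := by
        refine Finset.sum_le_sum fun d _ => ?_
        have := finrank_inv_le (χ.ker ⧸ Γ n) (e d) N hN0
        rwa [← Subgroup.index] at this
      rw [Finset.sum_add_distrib, Finset.sum_const, Finset.card_univ, nsmul_eq_mul] at h6
      have h7 : ∑ d : Dart' L, ∑ j ∈ Finset.Ico 1 N, (fx (χ.ker ⧸ Γ n) (e d ^ j) : ℝ) =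
          (∑ d : Dart' L, ∑ j ∈ Finset.Ico 1 N,
            (fx (χ.ker ⧸ Γ n) (e d ^ j) : ℝ) / ((Γ n).index : ℝ)) * (Γ n).index := by
        rw [Finset.sum_mul]
        refine Finset.sum_congr rfl fun d _ => ?_
        rw [Finset.sum_mul]
        refine Finset.sum_congr rfl fun j _ => ?_
        rw [div_mul_cancel₀ _ (hidx n).ne']
      rw [h7] at h6
      have h8 := mul_le_mul_of_nonneg_right hn.le (hidx n).le
      have h9 : D * (((Γ n).index : ℝ) / N) = D / N * (Γ n).index := by ring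
      have h10 := mul_le_mul_of_nonneg_right hDN (hidx n).le
      rw [h9] at h6
      linarith
    rw [lt_div_iff₀ (hidx n)]
    have h11 : c = ((∑ v, cc L v : ℕ) : ℝ) - Fintype.card V := by
      rw [hc, Finset.sum_sub_distrib]
      simp
    have h12 := hidx n
    rw [h11]
    nlinarith [mul_pos hε h12]
  filter_upwards [hup, hlow] with n h1 h2
  rw [Real.dist_eq, abs_lt]
  constructor <;> linarith

end RGB
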