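import Pool.Agent.RGB.Step

set_option autoImplicit false

/-!
# RGB module GOOD: all darts equivalent to darts in `E` are good
-/

namespace RGB

open Finset

variable {V H : Type} [Group H] {L : SimpleGraph V}

theorem emiss_nonneg {X : Type} [MulAction H X] [Finite X] [Finite V] (B : BB L H)
    (E : Set (V × V)) (t m : ℕ) (c : V × V) : 0 ≤ emiss B X E t m c := by
  have : Fintype X := Fintype.ofFinite X
  have : Fintype V := Fintype.ofFinite V
  classical
  have : Fintype (Om V X (m * t)) := inferInstance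
  rw [emiss_eq]
  positivity

theorem good_base [Finite V] (B : BB L H) (E : Set (V × V)) (t : ℕ) (c : V × V) (hc : c ∈ E)
    (ha : L.Adj c.1 c.2) : Good B E t c := by
  intro ε hε
  refine ⟨0, fun m _ => ⟨∅, by simp, 1, one_pos, ?_⟩⟩
  intro X _ _ _
  have : Fintype X := Fintype.ofFinite X
  have : Fintype V := Fintype.ofFinite V
  classical
  have : Fintype (Om V X (m * t)) := inferInstance
  rw [emiss_eq]
  have h0 : ∀ ω : Om V X (m * t),
      (univ.filter fun x : X => ¬ Gen (Phi B E m ω) (B.e c) x) = ∅ := by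
    intro ω
    refine Finset.filter_eq_empty_iff.2 fun x _ => ?_
    rw [not_not]
    exact Gen.base ⟨c, ha, rfl, Or.inl hc⟩
  have h1 : (∑ ω : Om V X (m * t),
      ((univ.filter fun x : X => ¬ Gen (Phi B E m ω) (B.e c) x).card : ℝ)) = 0 :=
    Finset.sum_eq_zero fun ω _ => by rw [h0 ω]; simp
  rw [h1, zero_div]
  positivity

theorem emiss_flip {X : Type} [MulAction H X] [Finite X] [Finite V] (B : BB L H)
    (E : Set (V × V)) (t m : ℕ) (v w : V) : emiss B X E t m (w, v) ≤ emiss B X E t m (v, w) := by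
  have : Fintype X := Fintype.ofFinite X
  have : Fintype V := Fintype.ofFinite V
  classical
  have : Fintype (Om V X (m * t)) := inferInstance
  rw [emiss_eq, emiss_eq]
  refine div_le_div_of_nonneg_right (Finset.sum_le_sum fun ω _ => ?_) (Nat.cast_nonneg _)
  refine Nat.cast_le.2 ?_
  refine Finset.card_le_card_of_injOn (fun x => B.e (w, v) • x) ?_ ?_
  · intro x hx
    have hx' : ¬ Gen (Phi B E m ω) (B.e (w, v)) x := (Finset.mem_filter.1 hx).2
    refine Finset.mem_coe.2 (Finset.mem_filter.2 ⟨Finset.mem_univ _, fun h => hx' ?_⟩)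
    have h1 := Gen.inv h
    have h2 : (B.e (v, w))⁻¹ = B.e (w, v) := B.s_inv 1 v w
    have h3 : B.e (v, w) • B.e (w, v) • x = x := by rw [← h2, smul_inv_smul]
    change Gen (Phi B E m ω) (B.e (v, w))⁻¹ (B.e (v, w) • B.e (w, v) • x) at h1
    rwa [h2, h3] at h1
  · intro x _ y _ h
    exact smul_left_cancel _ h

theorem good_flip [Finite V] (B : BB L H) (E : Set (V × V)) (t : ℕ) (v w : V)
    (h : Good B E t (v, w)) : Good B E t (w, v) := by
  intro ε hε
  obtain ⟨m₀, hm₀⟩ := h ε hε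
  refine ⟨m₀, fun m hm => ?_⟩
  obtain ⟨F, h1, τ, hτ, h2⟩ := hm₀ m hm
  refine ⟨F, h1, τ, hτ, ?_⟩
  intro X _ _ hX
  exact (emiss_flip B E t m v w).trans (h2 X hX)

theorem good_turn [Finite V] (B : BB L H) (E : Set (V × V)) (t : ℕ) (ht : 1 ≤ t) (v w w' : V)
    (h : w ≠ v) (h' : w' ≠ v) (ha : L.Adj v w) (ha' : L.Adj v w')
    (hr : (L.induce {u | u ≠ v}).Reachable ⟨w, h⟩ ⟨w', h'⟩)
    (hg : Good B E t (v, w)) : Good B E t (v, w') := by
  classical
  by_cases hww : w = w'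
  · subst hww; exact hg
  obtain ⟨p⟩ := hr.symm
  have hp := p.toPath.2
  set q := (p.toPath : (L.induce {u | u ≠ v}).Walk ⟨w', h'⟩ ⟨w, h⟩) with hq
  have hlen : 0 < q.length := by
    rcases Nat.eq_zero_or_pos q.length with h0 | h0
    · exfalso
      have := SimpleGraph.Walk.eq_of_length_eq_zero h0
      exact hww (congrArg Subtype.val this).symm
    · exact h0
  obtain ⟨r, hr'⟩ : ∃ r, q.length = r + 1 := ⟨q.length - 1, by omega⟩
  let u : ℕ → V := fun i => (q.getVert i).1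
  have hu0 : u 0 = w' := by simp [u]
  have hu1 : u (r + 1) = w := by
    show (q.getVert (r + 1)).1 = w
    rw [← hr', SimpleGraph.Walk.getVert_length]
  have hu : ∀ i ≤ r, L.Adj (u i) (u (i + 1)) := by
    intro i hi
    have := q.adj_getVert_succ (i := i) (by omega)
    exact this
  have hinj : ∀ i j, i ≤ r + 1 → j ≤ r + 1 → u i = u j → i = j := by
    intro i j hi hj hij
    have h1 : q.getVert i = q.getVert j := Subtype.ext hij
    exact hp.getVert_injOn (by simp only [Set.mem_setOf_eq]; omega)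
      (by simp only [Set.mem_setOf_eq]; omega) h1
  have hv : ∀ i ≤ r + 1, v ≠ u i := fun i _ => (q.getVert i).2.symm
  intro ε hε
  -- the number of tries
  set β : ℝ := 1 - (1 / ((t : ℝ) + 1)) ^ (2 * r + 1) with hβ
  have ht' : (0 : ℝ) < (t : ℝ) + 1 := by positivity
  have hβ0 : 0 ≤ β := by
    refine sub_nonneg.2 (pow_le_one₀ (by positivity) ?_)
    rw [div_le_one ht']
    have : (0 : ℝ) ≤ t := Nat.cast_nonneg t
    linarith
  have hβ1 : β < 1 := by
    have : (0 : ℝ) < (1 / ((t : ℝ) + 1)) ^ (2 * r + 1) := by positivity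
    linarith
  obtain ⟨M, hM⟩ := exists_pow_lt_of_lt_one (show (0 : ℝ) < ε / 3 by positivity) hβ1
  obtain ⟨m₀, hm₀⟩ := hg (ε / (3 * (2 * ((M : ℝ) + 2) ^ 2))) (by positivity)
  refine ⟨max m₀ (M + 2), fun m hm => ?_⟩
  obtain ⟨F₁, hF₁, h₁⟩ := step B E t m M r v u hu hinj hv (by rw [hu0]; exact ha')
    (by rw [hu1]; exact ha) ht (le_trans (le_max_right _ _) hm)
  obtain ⟨F₂, hF₂, τ, hτ, h₂⟩ := hm₀ m (le_trans (le_max_left _ _) hm)
  refine ⟨F₁ ∪ F₂, by simp [hF₁, hF₂], min τ (ε / (3 * ((F₁.card : ℝ) + 1))),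
    lt_min hτ (by positivity), ?_⟩
  intro X _ _ hX
  have k1 := h₁ X
  rw [hu0, hu1] at k1
  have hc0 : (0 : ℝ) ≤ Nat.card X := Nat.cast_nonneg _
  have k2 := h₂ X fun f hf => (hX f (Finset.mem_union_right _ hf)).trans
    (mul_le_mul_of_nonneg_right (min_le_left _ _) hc0)
  have k3 : ∑ f ∈ F₁, (fx X f : ℝ) ≤ ε / 3 * Nat.card X := by
    have : ∀ f ∈ F₁, (fx X f : ℝ) ≤ ε / (3 * ((F₁.card : ℝ) + 1)) * Nat.card X := fun f hf =>
      (hX f (Finset.mem_union_left _ hf)).trans (mul_le_mul_of_nonneg_right (min_le_right _ _) hc0)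
    refine (Finset.sum_le_sum this).trans ?_
    rw [Finset.sum_const, nsmul_eq_mul, ← mul_assoc]
    refine mul_le_mul_of_nonneg_right ?_ hc0
    have h5 : (F₁.card : ℝ) * (ε / (3 * ((F₁.card : ℝ) + 1))) =
        ε / 3 * ((F₁.card : ℝ) / ((F₁.card : ℝ) + 1)) := by
      field_simp
    rw [h5]
    have h6 : (F₁.card : ℝ) / ((F₁.card : ℝ) + 1) ≤ 1 := by
      rw [div_le_one (by positivity)]; linarith
    calc ε / 3 * ((F₁.card : ℝ) / ((F₁.card : ℝ) + 1)) ≤ ε / 3 * 1 :=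
          mul_le_mul_of_nonneg_left h6 (by positivity)
      _ = ε / 3 := mul_one _
  have k4 : β ^ M * Nat.card X ≤ ε / 3 * Nat.card X := mul_le_mul_of_nonneg_right hM.le hc0
  have k5 : 2 * ((M : ℝ) + 2) ^ 2 * emiss B X E t m (v, w) ≤ ε / 3 * Nat.card X := by
    have h7 := mul_le_mul_of_nonneg_left k2 (show (0 : ℝ) ≤ 2 * ((M : ℝ) + 2) ^ 2 by positivity)
    refine h7.trans (le_of_eq ?_)
    have : (2 * ((M : ℝ) + 2) ^ 2) ≠ 0 := by positivity
    field_simp
  calc emiss B X E t m (v, w') ≤ _ := k1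
    _ ≤ ε / 3 * Nat.card X + ε / 3 * Nat.card X + ε / 3 * Nat.card X :=
        add_le_add (add_le_add k3 k4) k5
    _ = ε * Nat.card X := by ring

theorem good_deq [Finite V] (B : BB L H) (E : Set (V × V)) (t : ℕ) (ht : 1 ≤ t)
    (c c' : V × V) (h : Deq L c c') : Good B E t c ↔ Good B E t c' := by
  induction h with
  | refl c => exact Iff.rfl
  | symm _ ih => exact ih.symm
  | trans _ _ ih1 ih2 => exact ih1.trans ih2
  | flip _ => exact ⟨good_flip B E t _ _, good_flip B E t _ _⟩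
  | turn h h' ha ha' hr =>
    exact ⟨good_turn B E t ht _ _ _ h h' ha ha' hr, good_turn B E t ht _ _ _ h' h ha' ha hr.symm⟩

/-- All darts at the same time. -/
theorem good_all [Fintype V] (B : BB L H) (E : Finset (V × V)) (t : ℕ) (ht : 1 ≤ t)
    (hE : ∀ c ∈ E, L.Adj c.1 c.2) (hcov : ∀ v w, L.Adj v w → ∃ c ∈ E, Deq L (v, w) c)
    (ε : ℝ) (hε : 0 < ε) :
    ∃ m : ℕ, 1 ≤ m ∧ ∃ F : Finset H, (1 : H) ∉ F ∧ ∃ τ : ℝ, 0 < τ ∧
      ∀ (X : Type) [Finite X] [MulAction H X],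
        (∀ f ∈ F, (fx X f : ℝ) ≤ τ * Nat.card X) →
          ∀ v w, L.Adj v w → emiss B X (E : Set (V × V)) t m (v, w) ≤ ε * Nat.card X := by
  classical
  have hg : ∀ c : V × V, L.Adj c.1 c.2 → Good B (E : Set (V × V)) t c := by
    intro c hc
    obtain ⟨c', hc', hd⟩ := hcov c.1 c.2 hc
    exact (good_deq B _ t ht c c' hd).2 (good_base B _ t c' (by exact_mod_cast hc') (hE c' hc'))
  have hg' : ∀ c : V × V, ∃ m₀ : ℕ, L.Adj c.1 c.2 → ∀ m, m₀ ≤ m → ∃ F : Finset H, (1 : H) ∉ F ∧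
      ∃ τ : ℝ, 0 < τ ∧ ∀ (X : Type) [Finite X] [MulAction H X],
      (∀ f ∈ F, (fx X f : ℝ) ≤ τ * Nat.card X) →
        emiss B X (E : Set (V × V)) t m c ≤ ε * Nat.card X := by
    intro c
    by_cases hc : L.Adj c.1 c.2
    · obtain ⟨m₀, h⟩ := hg c hc ε hε
      exact ⟨m₀, fun _ => h⟩
    · exact ⟨0, fun h => absurd h hc⟩
  choose m₀ hm₀ using hg'
  set m := 1 + ∑ c, m₀ c with hm
  have hmc : ∀ c, m₀ c ≤ m := fun c =>
    (Finset.single_le_sum (fun c _ => Nat.zero_le (m₀ c)) (Finset.mem_univ c)).trans (by omega)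
  have h2 : ∀ c : V × V, ∃ F : Finset H, (1 : H) ∉ F ∧ ∃ τ : ℝ, 0 < τ ∧
      (L.Adj c.1 c.2 → ∀ (X : Type) [Finite X] [MulAction H X],
      (∀ f ∈ F, (fx X f : ℝ) ≤ τ * Nat.card X) →
        emiss B X (E : Set (V × V)) t m c ≤ ε * Nat.card X) := by
    intro c
    by_cases hc : L.Adj c.1 c.2
    · obtain ⟨F, h1, τ, hτ, h3⟩ := hm₀ c hc m (hmc c)
      exact ⟨F, h1, τ, hτ, fun _ => h3⟩
    · exact ⟨∅, by simp, 1, one_pos, fun h => absurd h hc⟩
  choose F hF τ hτ h3 using h2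
  have hτ' : ∃ σ : ℝ, 0 < σ ∧ ∀ c, σ ≤ τ c := by
    rcases isEmpty_or_nonempty (V × V) with he | he
    · exact ⟨1, one_pos, fun c => he.elim c⟩
    · obtain ⟨c, hc⟩ := Finite.exists_min τ
      exact ⟨τ c, hτ c, hc⟩
  obtain ⟨σ, hσ, hσ'⟩ := hτ'
  refine ⟨m, by omega, univ.biUnion F, ?_, σ, hσ, ?_⟩
  · rw [Finset.mem_biUnion]
    rintro ⟨c, _, h⟩
    exact hF c h
  · intro X _ _ hX v w hvw
    refine h3 (v, w) hvw X fun f hf => ?_
    refine (hX f (Finset.mem_biUnion.2 ⟨(v, w), Finset.mem_univ _, hf⟩)).trans ?_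
    exact mul_le_mul_of_nonneg_right (hσ' _) (Nat.cast_nonneg _)

end RGB
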