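import Pool.Agent.RGB.Defs

set_option autoImplicit false

/-!
# RGB module LOW1: cocycles (about 120 lines)

## Proof

Let `g w = PresentedGroup.of w`. For `f : Y → M` and `g ∈ G` let
`T g f : Equiv.Perm (Y × M)` be `(y, s) ↦ (g • y, s + f y)`; `T g f * T h f' = T (g h) (fun y => f' y + f (h • y))`.
Let `F w y = U (g w • y) - U y` if `w ≠ v` is in the component `C`, and `F w y = 0` otherwise.
Let `ρ₀ : FreeGroup V →* Equiv.Perm (Y × M)` be the lift of `w ↦ T (g w) (F w)`.
By induction over `x : FreeGroup V` (`FreeGroup.induction_on` or closure induction): `ρ₀ x` is of the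
form `T (mk x) f`.
Claim: `ρ₀ r = 1` for `r ∈ R`. By `hR.comp r v` `r` is in the subgroup generated by the letters in
`{v} ∪ C'` for a component `C'` of `L - v`.
* `C' = C`: let `ρ_U` be the homomorphism `x ↦ T (mk x) (fun y => U (mk x • y) - U y)`
  (a homomorphism of the free group, trivial on `r` as `mk r = 1`). It agrees with `ρ₀` on
  the letters in `{v} ∪ C` (for `v`: `F v = 0` and `U (g v • y) - U y = 0` by `hU`), so on the
  subgroup generated by them, so `ρ₀ r = ρ_U r = 1`.
* `C' ≠ C`: `ρ₀` agrees with `x ↦ T (mk x) 0` on the letters in `{v} ∪ C'`.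
So `ρ₀` factors through `ρ : G →* Equiv.Perm (Y × M)` (`PresentedGroup.toGroup`), every `ρ g` is of
the form `T g f`, put `c g y = (ρ g (y, 0)).2`.
-/

namespace RGB

/-- The permutation `(y, s) ↦ (g • y, s + f y)`. -/
def Tp {G Y M : Type} [Group G] [MulAction G Y] [AddCommGroup M] (g : G) (f : Y → M) :
    Equiv.Perm (Y × M) where
  toFun a := (g • a.1, a.2 + f a.1)
  invFun a := (g⁻¹ • a.1, a.2 - f (g⁻¹ • a.1))
  left_inv a := by simp
  right_inv a := by simp

/-- The homomorphism `g ↦ ((y, s) ↦ (g • y, s))`. -/
def T0 (G Y M : Type) [Group G] [MulAction G Y] [AddCommGroup M] : G →* Equiv.Perm (Y × M) where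
  toFun g := Tp g 0
  map_one' := by
    ext a
    · simp [Tp]
    · simp [Tp]
  map_mul' g h := by
    ext a
    · simp [Tp, mul_smul]
    · simp [Tp]

/-- The permutation `(y, s) ↦ (y, s - U y)`. -/
def Sh {Y M : Type} [AddCommGroup M] (U : Y → M) : Equiv.Perm (Y × M) where
  toFun a := (a.1, a.2 - U a.1)
  invFun a := (a.1, a.2 + U a.1)
  left_inv a := by simp
  right_inv a := by simp

theorem exists_cocycle {V : Type} (L : SimpleGraph V) (R : Set (FreeGroup V)) (hR : Rel L R)
    (v : V) (C : (L.induce {w | w ≠ v}).ConnectedComponent) {Y M : Type}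
    [MulAction (PresentedGroup R) Y] [AddCommGroup M] (U : Y → M)
    (hU : ∀ y, U ((PresentedGroup.of v : PresentedGroup R) • y) = U y) :
    ∃ c : PresentedGroup R → Y → M,
      (∀ g h y, c (g * h) y = c g (h • y) + c h y) ∧
      (∀ (w : V) (hw : w ≠ v), (L.induce {w | w ≠ v}).connectedComponentMk ⟨w, hw⟩ = C →
        ∀ y, c (PresentedGroup.of w) y = U ((PresentedGroup.of w : PresentedGroup R) • y) - U y) ∧
      (∀ w : V, (∀ hw : w ≠ v, (L.induce {w | w ≠ v}).connectedComponentMk ⟨w, hw⟩ ≠ C) →
        ∀ y, c (PresentedGroup.of w) y = 0) := by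
  classical
  let F : V → Y → M := fun w y =>
    if (∃ hw : w ≠ v, (L.induce {w | w ≠ v}).connectedComponentMk ⟨w, hw⟩ = C) then
      U ((PresentedGroup.of w : PresentedGroup R) • y) - U y else 0
  let f : V → Equiv.Perm (Y × M) := fun w => Tp (PresentedGroup.of w : PresentedGroup R) (F w)
  have hFv : F v = 0 := by
    funext y
    have : ¬ ∃ hw : v ≠ v, (L.induce {w | w ≠ v}).connectedComponentMk ⟨v, hw⟩ = C := by
      rintro ⟨hw, _⟩
      exact hw rfl
    exact if_neg this
  let ρV : FreeGroup V →* Equiv.Perm (Y × M) := (T0 (PresentedGroup R) Y M).comp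
    (PresentedGroup.mk R)
  let ρU : FreeGroup V →* Equiv.Perm (Y × M) := (MulAut.conj (Sh U)⁻¹).toMonoidHom.comp ρV
  have hmk : ∀ w, PresentedGroup.mk R (FreeGroup.of w) = (PresentedGroup.of w) := fun w => rfl
  have hrel : ∀ r ∈ R, FreeGroup.lift f r = 1 := by
    intro r hr
    have hr1 : PresentedGroup.mk R r = 1 := PresentedGroup.one_of_mem hr
    obtain ⟨C', hC'⟩ := hR.comp r hr v
    by_cases hCC : C' = C
    · have h1 : Set.EqOn (FreeGroup.lift f) ρU
          (Subgroup.closure (FreeGroup.of '' (insert v (Subtype.val '' C'.supp)))) := by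
        refine MonoidHom.eqOn_closure ?_
        rintro _ ⟨w, hw, rfl⟩
        rw [FreeGroup.lift_apply_of]
        rcases hw with hw | hw
        · subst hw
          refine Equiv.ext fun a => ?_
          show ((PresentedGroup.of w : PresentedGroup R) • a.1, a.2 + F w a.1) =
            ((PresentedGroup.of w : PresentedGroup R) • a.1,
              (a.2 - U a.1 + 0) + U ((PresentedGroup.of w : PresentedGroup R) • a.1))
          rw [hFv, hU]
          simp
        · obtain ⟨⟨w', hw'⟩, hw2, hw3⟩ := hw
          change w' = w at hw3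
          subst hw3
          have hw4 : (L.induce {w | w ≠ v}).connectedComponentMk ⟨w', hw'⟩ = C := by
            rw [SimpleGraph.ConnectedComponent.mem_supp_iff] at hw2
            rw [hw2, hCC]
          refine Equiv.ext fun a => ?_
          show ((PresentedGroup.of w' : PresentedGroup R) • a.1, a.2 + F w' a.1) =
            ((PresentedGroup.of w' : PresentedGroup R) • a.1,
              (a.2 - U a.1 + 0) + U ((PresentedGroup.of w' : PresentedGroup R) • a.1))
          have h5 : F w' a.1 = U ((PresentedGroup.of w' : PresentedGroup R) • a.1) - U a.1 :=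
            if_pos ⟨hw', hw4⟩
          rw [h5]
          congr 1
          abel
      have h2 := h1 hC'
      rw [h2]
      show (MulAut.conj (Sh U)⁻¹) (T0 (PresentedGroup R) Y M (PresentedGroup.mk R r)) = 1
      rw [hr1, map_one, map_one]
    · have h1 : Set.EqOn (FreeGroup.lift f) ρV
          (Subgroup.closure (FreeGroup.of '' (insert v (Subtype.val '' C'.supp)))) := by
        refine MonoidHom.eqOn_closure ?_
        rintro _ ⟨w, hw, rfl⟩
        rw [FreeGroup.lift_apply_of]
        have hF0 : F w = 0 := by
          rcases hw with hw | hw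
          · rw [hw, hFv]
          · obtain ⟨⟨w', hw'⟩, hw2, hw3⟩ := hw
            change w' = w at hw3
            subst hw3
            rw [SimpleGraph.ConnectedComponent.mem_supp_iff] at hw2
            funext y
            refine if_neg ?_
            rintro ⟨hw4, hw5⟩
            exact hCC (hw2.symm.trans hw5)
        show Tp (PresentedGroup.of w : PresentedGroup R) (F w) = Tp (PresentedGroup.of w) 0
        rw [hF0]
      have h2 := h1 hC'
      rw [h2]
      show T0 (PresentedGroup R) Y M (PresentedGroup.mk R r) = 1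
      rw [hr1, map_one]
  let ρ : PresentedGroup R →* Equiv.Perm (Y × M) := PresentedGroup.toGroup hrel
  have hρof : ∀ w, ρ (PresentedGroup.of w) = f w := fun w => PresentedGroup.toGroup.of hrel
  have hP : ∀ g : PresentedGroup R, ∀ y s, ρ g (y, s) = (g • y, s + (ρ g (y, 0)).2) := by
    intro g
    have hg : g ∈ Subgroup.closure (Set.range (PresentedGroup.of : V → PresentedGroup R)) := by
      rw [PresentedGroup.closure_range_of]; trivial
    induction hg using Subgroup.closure_induction with
    | mem x hx =>
      obtain ⟨w, rfl⟩ := hx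
      intro y s
      rw [hρof]
      show ((PresentedGroup.of w : PresentedGroup R) • y, s + F w y) =
        ((PresentedGroup.of w : PresentedGroup R) • y, s + (0 + F w y))
      rw [zero_add]
    | one => intro y s; simp
    | mul a b _ _ iha ihb =>
      intro y s
      rw [map_mul, Equiv.Perm.mul_apply, Equiv.Perm.mul_apply, ihb y s, iha, ihb y 0,
        iha (b • y) (0 + _), mul_smul]
      simp [add_assoc]
    | inv a _ iha =>
      intro y s
      have key : ∀ s, ρ a⁻¹ (y, s) = (a⁻¹ • y, s - (ρ a (a⁻¹ • y, 0)).2) := by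
        intro s
        rw [map_inv, Equiv.Perm.inv_eq_iff_eq, iha, smul_inv_smul, sub_add_cancel]
      rw [key s, key 0]
      simp [sub_eq_add_neg]
  refine ⟨fun g y => (ρ g (y, 0)).2, ?_, ?_, ?_⟩
  · intro g h y
    show (ρ (g * h) (y, 0)).2 = (ρ g (h • y, 0)).2 + (ρ h (y, 0)).2
    rw [map_mul, Equiv.Perm.mul_apply, hP h y 0, hP g (h • y) _]
    simp [add_comm]
  · intro w hw hwC y
    show (ρ (PresentedGroup.of w) (y, 0)).2 = _
    rw [hρof]
    show 0 + F w y = _
    rw [zero_add]
    exact if_pos ⟨hw, hwC⟩
  · intro w hw y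
    show (ρ (PresentedGroup.of w) (y, 0)).2 = _
    rw [hρof]
    show 0 + F w y = _
    rw [zero_add]
    exact if_neg fun ⟨h1, h2⟩ => hw h1 h2

end RGB
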