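import Pool.Agent.RGB.Low1

set_option autoImplicit false

/-!
# RGB module LOW2A: cocycles of the action of the kernel
-/

namespace RGB

/-- The component of `L - v` which contains a given edge (without `v`). -/
noncomputable def cpt {V : Type} (L : SimpleGraph V) (v a b : V) (h : L.Adj a b) :
    (L.induce {w | w ≠ v}).ConnectedComponent :=
  open Classical in
  if ha : a ≠ v then (L.induce {w | w ≠ v}).connectedComponentMk ⟨a, ha⟩
  else (L.induce {w | w ≠ v}).connectedComponentMk
    ⟨b, fun hb => h.ne ((not_not.1 ha).trans hb.symm)⟩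

theorem cpt_left {V : Type} (L : SimpleGraph V) (v a b : V) (h : L.Adj a b) (ha : a ≠ v) :
    cpt L v a b h = (L.induce {w | w ≠ v}).connectedComponentMk ⟨a, ha⟩ :=
  dif_pos ha

theorem cpt_right {V : Type} (L : SimpleGraph V) (v a b : V) (h : L.Adj a b) (hb : b ≠ v) :
    cpt L v a b h = (L.induce {w | w ≠ v}).connectedComponentMk ⟨b, hb⟩ := by
  by_cases ha : a ≠ v
  · rw [cpt_left L v a b h ha]
    refine SimpleGraph.ConnectedComponent.sound (SimpleGraph.Adj.reachable ?_)
    exact h
  · exact dif_neg ha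

section
variable {G : Type} [Group G] (χ : G →* Multiplicative ℤ) (Γ : Subgroup χ.ker)

/-- The embedding of the coset spaces. -/
def io : χ.ker ⧸ Γ → G ⧸ (Γ.map χ.ker.subtype) :=
  Quotient.map' (fun k => (k : G)) (by
    intro a b hab
    rw [QuotientGroup.leftRel_apply] at hab ⊢
    exact ⟨_, hab, rfl⟩)

theorem io_mk (k : χ.ker) : io χ Γ (QuotientGroup.mk k) = QuotientGroup.mk (k : G) := rfl

theorem io_inj : Function.Injective (io χ Γ) := by
  intro x y h
  induction x using QuotientGroup.induction_on with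
  | H a =>
    induction y using QuotientGroup.induction_on with
    | H b =>
      rw [io_mk, io_mk, QuotientGroup.eq] at h
      rw [QuotientGroup.eq]
      obtain ⟨γ, hγ, h2⟩ := h
      have : γ = a⁻¹ * b := Subtype.ext h2
      rw [← this]
      exact hγ

theorem io_smul (k : χ.ker) (x : χ.ker ⧸ Γ) : io χ Γ (k • x) = (k : G) • io χ Γ x := by
  induction x using QuotientGroup.induction_on with
  | H a => rfl

/-- The level. -/
def lev : G ⧸ (Γ.map χ.ker.subtype) → ℤ :=
  Quotient.lift (fun g => (χ g).toAdd) (by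
    intro a b hab
    have hab' := (QuotientGroup.leftRel_apply).1 hab
    obtain ⟨γ, _, h2⟩ := hab'
    have h3 : χ (a⁻¹ * b) = 1 := by
      rw [← h2]
      exact γ.2
    rw [map_mul, map_inv, inv_mul_eq_one] at h3
    show (χ a).toAdd = (χ b).toAdd
    rw [h3])

theorem lev_mk (g : G) : lev χ Γ (QuotientGroup.mk g) = (χ g).toAdd := rfl

theorem lev_smul (g : G) (y : G ⧸ (Γ.map χ.ker.subtype)) :
    lev χ Γ (g • y) = (χ g).toAdd + lev χ Γ y := by
  induction y using QuotientGroup.induction_on with
  | H a =>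
    show lev χ Γ (QuotientGroup.mk (g * a)) = _
    rw [lev_mk, lev_mk, map_mul, toAdd_mul]

theorem lev_io (x : χ.ker ⧸ Γ) : lev χ Γ (io χ Γ x) = 0 := by
  induction x using QuotientGroup.induction_on with
  | H a =>
    rw [io_mk, lev_mk]
    have : χ (a : G) = 1 := a.2
    rw [this, toAdd_one]

theorem exists_io (y : G ⧸ (Γ.map χ.ker.subtype)) (h : lev χ Γ y = 0) :
    ∃ x, io χ Γ x = y := by
  induction y using QuotientGroup.induction_on with
  | H a =>
    rw [lev_mk] at h
    have ha : a ∈ χ.ker := by
      rw [MonoidHom.mem_ker, ← ofAdd_toAdd (χ a), h, ofAdd_zero]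
    exact ⟨QuotientGroup.mk ⟨a, ha⟩, rfl⟩

theorem exists_down (g : G) (hg : χ g = Multiplicative.ofAdd 1) :
    ∃ d : G ⧸ (Γ.map χ.ker.subtype) → χ.ker ⧸ Γ,
      (∀ y, d (g • y) = d y) ∧ ∀ x, d (io χ Γ x) = x := by
  have h : ∀ y, ∃ x, io χ Γ x = g ^ (-(lev χ Γ y)) • y := by
    intro y
    refine exists_io χ Γ _ ?_
    rw [lev_smul, map_zpow, hg, ← ofAdd_zsmul, toAdd_ofAdd]
    simp
  choose d hd using h
  refine ⟨d, fun y => io_inj χ Γ ?_, fun x => io_inj χ Γ ?_⟩
  · rw [hd, hd, lev_smul, hg, toAdd_ofAdd, smul_smul, ← zpow_add_one]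
    congr 2
    ring
  · rw [hd, lev_io, neg_zero, zpow_zero, one_smul]

end

theorem exists_coc {V : Type} (L : SimpleGraph V) (R : Set (FreeGroup V)) (hR : Rel L R)
    (χ : PresentedGroup R →* Multiplicative ℤ)
    (hχ : ∀ v, χ (PresentedGroup.of v) = Multiplicative.ofAdd 1) (Γ : Subgroup χ.ker)
    (v : V) (C : (L.induce {w | w ≠ v}).ConnectedComponent) :
    ∃ c : χ.ker → (χ.ker ⧸ Γ) → ((χ.ker ⧸ Γ → ℚ) →ₗ[ℚ] ℚ),
      (∀ g h x, c (g * h) x = c g (h • x) + c h x) ∧
      (∀ (a b : V) (hab : L.Adj a b) (e : χ.ker),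
        (e : PresentedGroup R) = PresentedGroup.of a * (PresentedGroup.of b)⁻¹ →
        (cpt L v a b hab = C → ∀ x u, c e x u = u (e • x) - u x) ∧
        (cpt L v a b hab ≠ C → ∀ x u, c e x u = 0)) := by
  obtain ⟨d, hd1, hd2⟩ := exists_down χ Γ (PresentedGroup.of v) (hχ v)
  obtain ⟨c, h1, h2, h3⟩ := exists_cocycle L R hR v C
    (M := (χ.ker ⧸ Γ → ℚ) →ₗ[ℚ] ℚ) (fun y => LinearMap.proj (d y))
    (fun y => by rw [hd1])
  refine ⟨fun k x => c k (io χ Γ x), fun g h x => ?_, fun a b hab e he => ?_⟩
  · show c ((g : PresentedGroup R) * h) (io χ Γ x) =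
      c (g : PresentedGroup R) (io χ Γ (h • x)) + c (h : PresentedGroup R) (io χ Γ x)
    rw [h1, io_smul]
  · have hone : ∀ y, c 1 y = 0 := by
      intro y
      have := h1 1 1 y
      rw [one_mul, one_smul] at this
      exact left_eq_add.1 this
    have key : ∀ x, c (e : PresentedGroup R) (io χ Γ x) =
        c (PresentedGroup.of a) ((PresentedGroup.of b : PresentedGroup R)⁻¹ • io χ Γ x) -
        c (PresentedGroup.of b) ((PresentedGroup.of b : PresentedGroup R)⁻¹ • io χ Γ x) := by
      intro x
      rw [he, h1]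
      have := h1 (PresentedGroup.of b) (PresentedGroup.of b)⁻¹ (io χ Γ x)
      rw [mul_inv_cancel, hone] at this
      rw [eq_neg_of_add_eq_zero_right this.symm, sub_eq_add_neg]
    have hz1 : ∀ x, (PresentedGroup.of a : PresentedGroup R) •
        ((PresentedGroup.of b : PresentedGroup R)⁻¹ • io χ Γ x) = io χ Γ (e • x) := by
      intro x
      rw [smul_smul, ← he, io_smul]
    have hz2 : ∀ x, (PresentedGroup.of b : PresentedGroup R) •
        ((PresentedGroup.of b : PresentedGroup R)⁻¹ • io χ Γ x) = io χ Γ x := by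
      intro x
      rw [smul_inv_smul]
    by_cases ha : a = v
    · have hb : b ≠ v := fun hb => hab.ne (ha.trans hb.symm)
      have ha0 : ∀ y, c (PresentedGroup.of a) y = 0 := h3 a fun hw => absurd ha hw
      have hUz : ∀ x, d ((PresentedGroup.of b : PresentedGroup R)⁻¹ • io χ Γ x) = e • x := by
        intro x
        rw [← hd1, ← ha, hz1, hd2]
      constructor
      · intro hC x u
        rw [cpt_right L v a b hab hb] at hC
        show c (e : PresentedGroup R) (io χ Γ x) u = _
        rw [key, ha0, h2 b hb hC, hz2, hd2, hUz]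
        simp
      · intro hC x u
        rw [cpt_right L v a b hab hb] at hC
        show c (e : PresentedGroup R) (io χ Γ x) u = _
        rw [key, ha0, h3 b fun _ => hC]
        simp
    · by_cases hb : b = v
      · have hb0 : ∀ y, c (PresentedGroup.of b) y = 0 := h3 b fun hw => absurd hb hw
        have hUz : ∀ x, d ((PresentedGroup.of b : PresentedGroup R)⁻¹ • io χ Γ x) = x := by
          intro x
          rw [← hd1, ← hb, hz2, hd2]
        constructor
        · intro hC x u
          rw [cpt_left L v a b hab ha] at hC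
          show c (e : PresentedGroup R) (io χ Γ x) u = _
          rw [key, hb0, h2 a ha hC, hz1, hd2, hUz]
          simp
        · intro hC x u
          rw [cpt_left L v a b hab ha] at hC
          show c (e : PresentedGroup R) (io χ Γ x) u = _
          rw [key, hb0, h3 a fun _ => hC]
          simp
      · constructor
        · intro hC x u
          have hC1 := hC
          rw [cpt_left L v a b hab ha] at hC
          rw [cpt_right L v a b hab hb] at hC1
          show c (e : PresentedGroup R) (io χ Γ x) u = _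
          rw [key, h2 a ha hC, h2 b hb hC1, hz1, hz2, hd2, hd2]
          simp
        · intro hC x u
          have hC1 := hC
          rw [cpt_left L v a b hab ha] at hC
          rw [cpt_right L v a b hab hb] at hC1
          show c (e : PresentedGroup R) (io χ Γ x) u = _
          rw [key, h3 a fun _ => hC, h3 b fun _ => hC1]
          simp

end RGB
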