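import Pool.Agent.RGB.Defs

set_option autoImplicit false

/-!
# RGB module PROB: finite probability (pure counting)

## `allfail`

Let `q = 1 - (1 - 1 / T) ^ m`, `T = m * t`. Bernoulli: `(1 - 1/T)^m ≤ (1 + 1/T)^(-m) ≤
1 / (1 + m/T) = t / (t + 1)`, so `q ≥ 1 / (t + 1)`.

(1) Uniform marginals (`card_marg`), (2), (3) independence (`card_forall`).

## `cost`

For each `x` and `j` the number of `ω` with `ω (f j x) = 0` is `T ^ (|I| - 1) = |Ω| / T`; sum over
`j < 2 * m` and `x` (exchange the sums, union bound): `≤ 2 * m * |X| * |Ω| / T`.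
-/

namespace RGB

open Classical in
/-- Splitting a function into its values on the range of an injection and the other values. -/
noncomputable def splitE {I J : Type} (A : Type) (κ : J → I) (hκ : Function.Injective κ) :
    (I → A) ≃ (J → A) × ({i // i ∉ Set.range κ} → A) where
  toFun ω := (ω ∘ κ, fun i => ω i.1)
  invFun p := fun i => if h : i ∈ Set.range κ then p.1 (Classical.choose h) else p.2 ⟨i, h⟩
  left_inv ω := by
    funext i
    by_cases h : i ∈ Set.range κ
    · simp only [h, dite_true, Function.comp]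
      exact congrArg ω (Classical.choose_spec h)
    · simp only [h, dite_false]
  right_inv p := by
    obtain ⟨a, b⟩ := p
    refine Prod.ext ?_ ?_
    · funext j
      have h : κ j ∈ Set.range κ := ⟨j, rfl⟩
      simp only [Function.comp, h, dite_true]
      exact congrArg a (hκ (Classical.choose_spec h))
    · funext i
      have h : i.1 ∉ Set.range κ := i.2
      simp only [h, dite_false]

theorem card_marg {I J A : Type} [Finite I] [Finite J] (κ : J → I)
    (hκ : Function.Injective κ) (p : (J → A) → Prop) :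
    Nat.card {ω : I → A // p (ω ∘ κ)} =
      Nat.card {η : J → A // p η} * Nat.card ({i // i ∉ Set.range κ} → A) := by
  rw [← Nat.card_prod]
  refine Nat.card_congr ?_
  refine Equiv.trans (Equiv.subtypeEquiv (q := fun x => p x.1) (splitE A κ hκ) ?_)
    Equiv.prodSubtypeFstEquivSubtypeProd
  intro ω
  exact Iff.rfl

theorem card_forall {K B A : Type} [Finite K] (P : (B → A) → Prop) :
    Nat.card {η : K × B → A // ∀ k, P (fun b => η (k, b))} =
      Nat.card {f : B → A // P f} ^ Nat.card K := by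
  rw [← Nat.card_fun]
  refine Nat.card_congr ?_
  refine Equiv.trans (Equiv.subtypeEquiv (q := fun F : K → (B → A) => ∀ k, P (F k))
    (Equiv.curry K B A) ?_) Equiv.subtypePiEquivPi
  intro η
  exact Iff.rfl

theorem card_not {A : Type} [Finite A] (P : A → Prop) :
    Nat.card {a // P a} + Nat.card {a // ¬ P a} = Nat.card A := by
  classical
  rw [← Nat.card_sum]
  exact Nat.card_congr (Equiv.sumCompl P)

theorem card_zero (T : ℕ) (hT : 1 ≤ T) : Nat.card {a : Fin T // ¬ (a : ℕ) = 0} = T - 1 := by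
  classical
  have h0 : Nat.card {a : Fin T // (a : ℕ) = 0} = 1 := by
    rw [Nat.card_eq_one_iff_unique]
    refine ⟨⟨fun a b => ?_⟩, ⟨⟨⟨0, hT⟩, rfl⟩⟩⟩
    apply Subtype.ext
    apply Fin.ext
    rw [a.2, b.2]
  have h1 := card_not (fun a : Fin T => (a : ℕ) = 0)
  rw [h0, Nat.card_eq_fintype_card (α := Fin T), Fintype.card_fin] at h1
  omega

theorem bern (m t : ℕ) (hm : 1 ≤ m) (ht : 1 ≤ t) :
    (((m * t : ℕ) : ℝ) - 1) ^ m ≤ ((m * t : ℕ) : ℝ) ^ m * (t / (t + 1)) := by
  have hm' : (1 : ℝ) ≤ m := by exact_mod_cast hm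
  have ht' : (1 : ℝ) ≤ t := by exact_mod_cast ht
  have hT : (1 : ℝ) ≤ ((m * t : ℕ) : ℝ) := by
    have : 1 ≤ m * t := Nat.one_le_iff_ne_zero.2 (by positivity)
    exact_mod_cast this
  set T : ℝ := ((m * t : ℕ) : ℝ) with hTdef
  have hTe : T = m * t := by rw [hTdef]; push_cast; ring
  have h1 : (T - 1) ^ m * (1 + 1 / T) ^ m ≤ T ^ m := by
    rw [← mul_pow]
    apply pow_le_pow_left₀
    · apply mul_nonneg
      · linarith
      · positivity
    · have : (T - 1) * (1 + 1 / T) = T - 1 / T := by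
        field_simp
        ring
      rw [this]
      have : 0 ≤ 1 / T := by positivity
      linarith
  have h2 : 1 + 1 / (t : ℝ) ≤ (1 + 1 / T) ^ m := by
    have h := one_add_mul_le_pow (a := 1 / T) (by
      have : 0 ≤ 1 / T := by positivity
      linarith) m
    have e : (m : ℝ) * (1 / T) = 1 / t := by
      rw [hTe]
      field_simp
    rw [e] at h
    exact h
  have h3 : (T - 1) ^ m * (1 + 1 / (t : ℝ)) ≤ T ^ m := by
    refine le_trans ?_ h1
    apply mul_le_mul_of_nonneg_left h2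
    apply pow_nonneg
    linarith
  have h4 : (T - 1) ^ m = (T - 1) ^ m * (1 + 1 / (t : ℝ)) * (t / (t + 1)) := by
    field_simp
  rw [h4]
  apply mul_le_mul_of_nonneg_right h3
  positivity

theorem allfail {I Λ : Type} [Finite I] [Finite Λ] (M m t : ℕ) (hm : 1 ≤ m) (ht : 1 ≤ t)
    (κ : Fin M × Λ × Fin m → I) (hκ : Function.Injective κ) :
    (Nat.card {ω : I → Fin (m * t) // ∀ k, ¬ ∀ l, ∃ j, (ω (κ (k, l, j)) : ℕ) = 0} : ℝ) ≤
      (1 - (1 / ((t : ℝ) + 1)) ^ Nat.card Λ) ^ M * Nat.card (I → Fin (m * t)) := by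
  have hT1 : 1 ≤ m * t := Nat.one_le_iff_ne_zero.2 (by positivity)
  have ht' : (1 : ℝ) ≤ t := by exact_mod_cast ht
  -- the inner counts
  have c1 : Nat.card {f : Fin m → Fin (m * t) // ¬ ∃ j, (f j : ℕ) = 0} = (m * t - 1) ^ m := by
    have h : Nat.card {f : Fin m → Fin (m * t) // ¬ ∃ j, (f j : ℕ) = 0} =
        Nat.card (Fin m → {a : Fin (m * t) // ¬ (a : ℕ) = 0}) := by
      refine Nat.card_congr (Equiv.trans (Equiv.subtypeEquiv
        (q := fun f : Fin m → Fin (m * t) => ∀ j, ¬ (f j : ℕ) = 0) (Equiv.refl _) ?_)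
        (Equiv.subtypePiEquivPi (β := fun _ : Fin m => Fin (m * t))
          (p := fun {_} (a : Fin (m * t)) => ¬ (a : ℕ) = 0)))
      intro f
      simp
    rw [h, Nat.card_fun, card_zero _ hT1, Nat.card_eq_fintype_card (α := Fin m), Fintype.card_fin]
  have c2 : (Nat.card {f : Fin m → Fin (m * t) // ∃ j, (f j : ℕ) = 0} : ℝ) =
      ((m * t : ℕ) : ℝ) ^ m - (((m * t : ℕ) : ℝ) - 1) ^ m := by
    have h := card_not (fun f : Fin m → Fin (m * t) => ∃ j, (f j : ℕ) = 0)
    rw [c1, Nat.card_fun, Nat.card_eq_fintype_card (α := Fin m), Fintype.card_fin,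
      Nat.card_eq_fintype_card (α := Fin (m * t)), Fintype.card_fin] at h
    have h' : (Nat.card {f : Fin m → Fin (m * t) // ∃ j, (f j : ℕ) = 0} : ℝ) +
        ((m * t - 1 : ℕ) : ℝ) ^ m = ((m * t : ℕ) : ℝ) ^ m := by exact_mod_cast h
    rw [Nat.cast_sub hT1] at h'
    push_cast at h' ⊢
    linarith
  set a : ℝ := ((m * t : ℕ) : ℝ) ^ m - (((m * t : ℕ) : ℝ) - 1) ^ m with ha
  have ha0 : 1 / ((t : ℝ) + 1) * ((m * t : ℕ) : ℝ) ^ m ≤ a := by
    have h := bern m t hm ht
    have e : ((m * t : ℕ) : ℝ) ^ m * (t / (t + 1)) = ((m * t : ℕ) : ℝ) ^ m -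
        1 / ((t : ℝ) + 1) * ((m * t : ℕ) : ℝ) ^ m := by
      field_simp
      ring
    rw [e] at h
    rw [ha]
    linarith
  -- the middle counts
  have c3 : (Nat.card {f : Λ × Fin m → Fin (m * t) // ∀ l, ∃ j, (f (l, j) : ℕ) = 0} : ℝ) =
      a ^ Nat.card Λ := by
    have h := card_forall (K := Λ) (fun f : Fin m → Fin (m * t) => ∃ j, (f j : ℕ) = 0)
    rw [h]
    push_cast
    rw [c2]
  have c4 : (Nat.card (Λ × Fin m → Fin (m * t)) : ℝ) =
      (((m * t : ℕ) : ℝ) ^ m) ^ Nat.card Λ := by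
    rw [Nat.card_fun, Nat.card_prod, Nat.card_eq_fintype_card (α := Fin m), Fintype.card_fin,
      Nat.card_eq_fintype_card (α := Fin (m * t)), Fintype.card_fin, mul_comm (Nat.card Λ), pow_mul]
    push_cast
    ring
  have c5 : (Nat.card {f : Λ × Fin m → Fin (m * t) // ¬ ∀ l, ∃ j, (f (l, j) : ℕ) = 0} : ℝ) ≤
      (1 - (1 / ((t : ℝ) + 1)) ^ Nat.card Λ) * Nat.card (Λ × Fin m → Fin (m * t)) := by
    have h := card_not (fun f : Λ × Fin m → Fin (m * t) => ∀ l, ∃ j, (f (l, j) : ℕ) = 0)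
    have h' : (Nat.card {f : Λ × Fin m → Fin (m * t) // ∀ l, ∃ j, (f (l, j) : ℕ) = 0} : ℝ) +
        (Nat.card {f : Λ × Fin m → Fin (m * t) // ¬ ∀ l, ∃ j, (f (l, j) : ℕ) = 0} : ℝ) =
        Nat.card (Λ × Fin m → Fin (m * t)) := by exact_mod_cast h
    have h2 : (1 / ((t : ℝ) + 1)) ^ Nat.card Λ * Nat.card (Λ × Fin m → Fin (m * t)) ≤
        a ^ Nat.card Λ := by
      rw [c4, ← mul_pow]
      exact pow_le_pow_left₀ (by positivity) ha0 _
    rw [c3] at h'
    linarith
  -- the outer counts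
  have d1 := card_marg κ hκ (fun η : Fin M × Λ × Fin m → Fin (m * t) =>
    ∀ k, ¬ ∀ l, ∃ j, (η (k, l, j) : ℕ) = 0)
  have d2 := card_forall (K := Fin M) (fun f : Λ × Fin m → Fin (m * t) =>
    ¬ ∀ l, ∃ j, (f (l, j) : ℕ) = 0)
  have d3 := card_marg κ hκ (fun _ : Fin M × Λ × Fin m → Fin (m * t) => True)
  have d4 : Nat.card (I → Fin (m * t)) = Nat.card (Fin M × Λ × Fin m → Fin (m * t)) *
      Nat.card ({i // i ∉ Set.range κ} → Fin (m * t)) := by
    have e1 : Nat.card {ω : I → Fin (m * t) // True} = Nat.card (I → Fin (m * t)) :=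
      Nat.card_congr (Equiv.subtypeUnivEquiv (fun _ => trivial))
    have e2 : Nat.card {η : Fin M × Λ × Fin m → Fin (m * t) // True} =
        Nat.card (Fin M × Λ × Fin m → Fin (m * t)) :=
      Nat.card_congr (Equiv.subtypeUnivEquiv (fun _ => trivial))
    rw [← e1, ← e2]
    exact d3
  have d5 : (Nat.card (Fin M × Λ × Fin m → Fin (m * t)) : ℝ) =
      (Nat.card (Λ × Fin m → Fin (m * t)) : ℝ) ^ M := by
    have h := card_forall (K := Fin M) (fun _ : Λ × Fin m → Fin (m * t) => True)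
    have e1 : Nat.card {η : Fin M × Λ × Fin m → Fin (m * t) // Fin M → True} =
        Nat.card (Fin M × Λ × Fin m → Fin (m * t)) :=
      Nat.card_congr (Equiv.subtypeUnivEquiv (fun _ _ => trivial))
    have e2 : Nat.card {η : Λ × Fin m → Fin (m * t) // True} =
        Nat.card (Λ × Fin m → Fin (m * t)) :=
      Nat.card_congr (Equiv.subtypeUnivEquiv (fun _ => trivial))
    rw [e2, Nat.card_eq_fintype_card (α := Fin M), Fintype.card_fin] at h
    rw [← e1]
    exact_mod_cast h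
  have d6 : (Nat.card {ω : I → Fin (m * t) // ∀ k, ¬ ∀ l, ∃ j, (ω (κ (k, l, j)) : ℕ) = 0} : ℝ) =
      (Nat.card {f : Λ × Fin m → Fin (m * t) // ¬ ∀ l, ∃ j, (f (l, j) : ℕ) = 0} : ℝ) ^ M *
      Nat.card ({i // i ∉ Set.range κ} → Fin (m * t)) := by
    have e0 : Nat.card {ω : I → Fin (m * t) // ∀ k, ¬ ∀ l, ∃ j, (ω (κ (k, l, j)) : ℕ) = 0} =
        Nat.card {ω : I → Fin (m * t) //
          ∀ k, ¬ ∀ l, ∃ j, ((ω ∘ κ) (k, l, j) : ℕ) = 0} := rfl
    rw [e0, d1, d2, Nat.card_eq_fintype_card (α := Fin M), Fintype.card_fin]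
    push_cast
    ring
  rw [d6, d4]
  push_cast
  rw [d5, ← mul_assoc, ← mul_pow]
  apply mul_le_mul_of_nonneg_right _ (Nat.cast_nonneg _)
  exact pow_le_pow_left₀ (Nat.cast_nonneg _) c5 _

theorem card_single {I : Type} [Finite I] (T : ℕ) (hT : 1 ≤ T) (i : I) :
    (Nat.card {ω : I → Fin T // (ω i : ℕ) = 0} : ℝ) = 1 / T * Nat.card (I → Fin T) := by
  have hT' : (1 : ℝ) ≤ T := by exact_mod_cast hT
  have hκ : Function.Injective (fun _ : Unit => i) := fun _ _ _ => rfl
  have d1 := card_marg (A := Fin T) (fun _ : Unit => i) hκ (fun η => (η () : ℕ) = 0)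
  have d3 := card_marg (A := Fin T) (fun _ : Unit => i) hκ (fun _ => True)
  have e1 : Nat.card {ω : I → Fin T // True} = Nat.card (I → Fin T) :=
    Nat.card_congr (Equiv.subtypeUnivEquiv (fun _ => trivial))
  have e2 : Nat.card {η : Unit → Fin T // True} = T := by
    rw [Nat.card_congr (Equiv.subtypeUnivEquiv (fun _ => trivial)), Nat.card_fun]
    simp
  have e3 : Nat.card {η : Unit → Fin T // (η () : ℕ) = 0} = 1 := by
    rw [Nat.card_eq_one_iff_unique]
    refine ⟨⟨fun a b => ?_⟩, ⟨⟨fun _ => ⟨0, hT⟩, rfl⟩⟩⟩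
    apply Subtype.ext
    funext u
    apply Fin.ext
    have h1 := a.2
    have h2 := b.2
    cases u
    rw [h1, h2]
  rw [e3, one_mul] at d1
  rw [e1, e2] at d3
  have e0 : Nat.card {ω : I → Fin T // (ω i : ℕ) = 0} =
      Nat.card {ω : I → Fin T // (((ω ∘ fun _ : Unit => i) ()) : ℕ) = 0} := rfl
  rw [e0, d1, d3]
  push_cast
  field_simp

theorem cost {I X : Type} [Finite I] [Finite X] (m t : ℕ) (hm : 1 ≤ m) (ht : 1 ≤ t)
    (f : ℕ → X → I) :
    ∑ᶠ ω : I → Fin (m * t), (Nat.card {x : X // ∃ j < 2 * m, (ω (f j x) : ℕ) = 0} : ℝ) ≤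
      2 / t * Nat.card X * Nat.card (I → Fin (m * t)) := by
  classical
  have hT1 : 1 ≤ m * t := Nat.one_le_iff_ne_zero.2 (by positivity)
  have hm' : (1 : ℝ) ≤ m := by exact_mod_cast hm
  have ht' : (1 : ℝ) ≤ t := by exact_mod_cast ht
  have : Fintype I := Fintype.ofFinite I
  have : Fintype X := Fintype.ofFinite X
  rw [finsum_eq_sum_of_fintype]
  have h1 : ∀ ω : I → Fin (m * t),
      (Nat.card {x : X // ∃ j < 2 * m, (ω (f j x) : ℕ) = 0} : ℝ) ≤
      ∑ x : X, ∑ j ∈ Finset.range (2 * m), (if (ω (f j x) : ℕ) = 0 then (1 : ℝ) else 0) := by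
    intro ω
    rw [Nat.card_eq_fintype_card, Fintype.card_subtype, Finset.card_filter]
    push_cast
    apply Finset.sum_le_sum
    intro x _
    split_ifs with h
    · obtain ⟨j, hj, hj0⟩ := h
      have h2 : (if (ω (f j x) : ℕ) = 0 then (1 : ℝ) else 0) ≤
          ∑ j ∈ Finset.range (2 * m), (if (ω (f j x) : ℕ) = 0 then (1 : ℝ) else 0) := by
        apply Finset.single_le_sum (f := fun j => (if (ω (f j x) : ℕ) = 0 then (1 : ℝ) else 0))
        · intro k _
          split_ifs <;> norm_num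
        · exact Finset.mem_range.2 hj
      rw [if_pos hj0] at h2
      exact h2
    · apply Finset.sum_nonneg
      intro k _
      split_ifs <;> norm_num
  refine (Finset.sum_le_sum (fun ω _ => h1 ω)).trans ?_
  rw [Finset.sum_comm]
  have h2 : ∀ x : X, ∑ ω : I → Fin (m * t), ∑ j ∈ Finset.range (2 * m),
      (if (ω (f j x) : ℕ) = 0 then (1 : ℝ) else 0) =
      (2 * m : ℕ) * (1 / ((m * t : ℕ) : ℝ) * Nat.card (I → Fin (m * t))) := by
    intro x
    rw [Finset.sum_comm]
    have h3 : ∀ j ∈ Finset.range (2 * m), ∑ ω : I → Fin (m * t),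
        (if (ω (f j x) : ℕ) = 0 then (1 : ℝ) else 0) =
        1 / ((m * t : ℕ) : ℝ) * Nat.card (I → Fin (m * t)) := by
      intro j _
      rw [← card_single (m * t) hT1 (f j x), Nat.card_eq_fintype_card, Fintype.card_subtype,
        Finset.card_filter]
      push_cast
      rfl
    rw [Finset.sum_congr rfl h3, Finset.sum_const, Finset.card_range, nsmul_eq_mul]
  rw [Finset.sum_congr rfl (fun x _ => h2 x), Finset.sum_const, Finset.card_univ, nsmul_eq_mul,
    Nat.card_eq_fintype_card (α := X)]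
  apply le_of_eq
  push_cast
  field_simp

end RGB
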