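import Pool.Agent.RGB.Arr
import Pool.Agent.RGB.Prob

set_option autoImplicit false

/-!
# RGB module STEP: the main step
-/

namespace RGB

open Finset

variable {V H : Type} [Group H] {L : SimpleGraph V}

theorem BB.s_self (B : BB L H) (k : ℕ) (v : V) : B.s k v v = 1 := by
  have := B.mul k v v v
  exact mul_eq_left.1 this

theorem BB.s_inv (B : BB L H) (k : ℕ) (v w : V) : (B.s k v w)⁻¹ = B.s k w v :=
  inv_eq_of_mul_eq_one_right (by rw [B.mul, B.s_self])

theorem BB.psi_other (B : BB L H) (x : V) (k : ℕ) (v : V) (h : x ≠ v) :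
    B.psi x (B.s k v x) = Multiplicative.ofAdd (-(k : ℤ)) := by
  rw [← B.s_inv, map_inv, B.psi_self x k v h, ofAdd_neg]

theorem BB.s_eq (B : BB L H) (k : ℕ) (v w : V) (h : L.Adj v w) : B.s k v w = B.e (v, w) ^ k :=
  B.pow k v w h

section
variable (B : BB L H) (v : V) (u : ℕ → V) (r : ℕ)

/-- the elements moving the point to the beginnings of the intervals -/
def ev (K : ℕ) : Option (Fin r × Bool) → H
  | none => B.s K (u 0) v
  | some (i, false) => B.s K (u (i + 1)) v
  | some (i, true) => B.s (K + 1) (u (i + 1)) (u 0) * B.s K (u 0) v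

/-- the darts -/
def dt : Option (Fin r × Bool) → V × V
  | none => (u 1, u 0)
  | some (i, _) => (u (i + 2), u (i + 1))

/-- the elements moving the point to the places of the marks -/
def hh (K : ℕ) (l : Option (Fin r × Bool)) (j : ℕ) : H :=
  (B.e (dt u r l))⁻¹ ^ j * ev B v u r K l

variable {v u r}

theorem psi_dt (x : V) (l : Option (Fin r × Bool)) (h1 : x ≠ (dt u r l).1)
    (h2 : x ≠ (dt u r l).2) : B.psi x (B.e (dt u r l)) = 1 :=
  B.psi_ne x 1 _ _ h1 h2

theorem psi_v_hh (hv : ∀ i ≤ r + 1, v ≠ u i) (K : ℕ) (l : Option (Fin r × Bool)) (j : ℕ) :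
    B.psi v (hh B v u r K l j) = Multiplicative.ofAdd (-(K : ℤ)) := by
  have hd : B.psi v (B.e (dt u r l)) = 1 := by
    refine psi_dt B v l ?_ ?_
    · rcases l with _ | ⟨i, b⟩
      · exact hv 1 (by omega)
      · exact hv (i + 2) (by have := i.2; omega)
    · rcases l with _ | ⟨i, b⟩
      · exact hv 0 (by omega)
      · exact hv (i + 1) (by have := i.2; omega)
  unfold hh
  rw [map_mul, map_pow, map_inv, hd, inv_one, one_pow, one_mul]
  rcases l with _ | ⟨i, b⟩
  · exact B.psi_other v K (u 0) (hv 0 (by omega))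
  · rcases b with _ | _
    · exact B.psi_other v K (u (i + 1)) (hv _ (by have := i.2; omega))
    · show B.psi v (B.s (K + 1) (u (i + 1)) (u 0) * B.s K (u 0) v) = _
      rw [map_mul, B.psi_ne v (K + 1) _ _ (hv _ (by have := i.2; omega)) (hv 0 (by omega)),
        one_mul]
      exact B.psi_other v K (u 0) (hv 0 (by omega))

theorem hh_inj (hinj : ∀ i j, i ≤ r + 1 → j ≤ r + 1 → u i = u j → i = j)
    (hv : ∀ i ≤ r + 1, v ≠ u i) {K K' : ℕ} {l l' : Option (Fin r × Bool)} {j j' : ℕ}
    (h1 : dt u r l = dt u r l') (h2 : hh B v u r K l j = hh B v u r K' l' j') :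
    K = K' ∧ l = l' ∧ j = j' := by
  have hK : K = K' := by
    have h3 := psi_v_hh B hv K l j
    rw [h2, psi_v_hh B hv K' l' j'] at h3
    have h4 := Multiplicative.ofAdd.injective h3
    omega
  subst hK
  have hu : ∀ i, 0 < i → i ≤ r + 1 → u 0 ≠ u i := fun i hi hi' h =>
    absurd (hinj 0 i (by omega) hi' h) (by omega)
  have hl : l = l' := by
    rcases l with _ | ⟨i, b⟩
    · rcases l' with _ | ⟨i', b'⟩
      · rfl
      · exfalso
        have h3 : u 0 = u (i' + 1) := congrArg Prod.snd h1
        exact hu _ (by omega) (by have := i'.2; omega) h3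
    · rcases l' with _ | ⟨i', b'⟩
      · exfalso
        have h3 : u (i + 1) = u 0 := congrArg Prod.snd h1
        exact hu _ (by omega) (by have := i.2; omega) h3.symm
      · have h3 : u (i + 1) = u (i' + 1) := congrArg Prod.snd h1
        have h4 : (i : ℕ) + 1 = i' + 1 :=
          hinj _ _ (by have := i.2; omega) (by have := i'.2; omega) h3
        have h5 : i = i' := Fin.ext (by omega)
        subst h5
        have key : ∀ b : Bool, B.psi (u 0) (hh B v u r K (some (i, b)) j) =
            if b then Multiplicative.ofAdd (-1 : ℤ) else 1 := by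
          intro b
          unfold hh
          rw [map_mul, map_pow, map_inv, psi_dt B (u 0) (some (i, b))
            (hu _ (by omega) (by have := i.2; omega)) (hu _ (by omega) (by have := i.2; omega)),
            inv_one, one_pow, one_mul]
          rcases b with _ | _
          · show B.psi (u 0) (B.s K (u (i + 1)) v) = 1
            exact B.psi_ne _ _ _ _ (hu _ (by omega) (by have := i.2; omega))
              (hv 0 (by omega)).symm
          · show B.psi (u 0) (B.s (K + 1) (u (i + 1)) (u 0) * B.s K (u 0) v) = _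
            rw [map_mul, B.psi_other _ _ _ (hu _ (by omega) (by have := i.2; omega)),
              B.psi_self _ _ _ (hv 0 (by omega)).symm, ← ofAdd_add]
            congr 1
            push_cast
            ring
        have key' : ∀ b : Bool, B.psi (u 0) (hh B v u r K (some (i, b)) j') =
            if b then Multiplicative.ofAdd (-1 : ℤ) else 1 := by
          intro b
          unfold hh
          rw [map_mul, map_pow, map_inv, psi_dt B (u 0) (some (i, b))
            (hu _ (by omega) (by have := i.2; omega)) (hu _ (by omega) (by have := i.2; omega)),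
            inv_one, one_pow, one_mul]
          rcases b with _ | _
          · show B.psi (u 0) (B.s K (u (i + 1)) v) = 1
            exact B.psi_ne _ _ _ _ (hu _ (by omega) (by have := i.2; omega))
              (hv 0 (by omega)).symm
          · show B.psi (u 0) (B.s (K + 1) (u (i + 1)) (u 0) * B.s K (u 0) v) = _
            rw [map_mul, B.psi_other _ _ _ (hu _ (by omega) (by have := i.2; omega)),
              B.psi_self _ _ _ (hv 0 (by omega)).symm, ← ofAdd_add]
            congr 1
            push_cast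
            ring
        have h6 := congrArg (B.psi (u 0)) h2
        rw [key, key'] at h6
        rcases b with _ | _ <;> rcases b' with _ | _
        · rfl
        · exact absurd h6.symm (by simp)
        · exact absurd h6 (by simp)
        · rfl
  subst hl
  refine ⟨rfl, rfl, ?_⟩
  have h3 : (dt u r l).1 ≠ (dt u r l).2 := by
    rcases l with _ | ⟨i, b⟩
    · exact (hu 1 (by omega) (by omega)).symm
    · intro h
      have := hinj _ _ (by have := i.2; omega) (by have := i.2; omega) h
      omega
  have h4 : (B.e (dt u r l))⁻¹ ^ j = (B.e (dt u r l))⁻¹ ^ j' := mul_right_cancel h2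
  have h5 := congrArg (B.psi (dt u r l).1) h4
  have h6 : B.psi (dt u r l).1 (B.e (dt u r l)) = Multiplicative.ofAdd (1 : ℤ) := by
    have := B.psi_self (dt u r l).1 1 (dt u r l).2 h3
    exact_mod_cast this
  rw [map_pow, map_pow, map_inv, h6, ← ofAdd_neg, ← ofAdd_nsmul, ← ofAdd_nsmul] at h5
  have h7 := Multiplicative.ofAdd.injective h5
  simp only [nsmul_eq_mul] at h7
  omega

end

section
variable {X : Type} [MulAction H X]

theorem interval (B : BB L H) (E : Set (V × V)) (m T : ℕ) (ω : Om V X T) (c : V × V)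
    (hc : L.Adj c.1 c.2) (y : X) (h : ∃ j < m, (ω (c, (B.e c)⁻¹ ^ j • y) : ℕ) = 0) (K : ℕ)
    (hK : K ≤ m) : Gen (Phi B E m ω) (B.e c ^ K) y := by
  obtain ⟨j, hj, hω⟩ := h
  refine Gen.pow K fun t ht => Gen.base ⟨c, hc, rfl, Or.inr ⟨j + t, by omega, ?_⟩⟩
  rw [smul_smul, pow_add, mul_assoc, inv_pow _ t, inv_mul_cancel, mul_one]
  exact hω

theorem chain (B : BB L H) {Φ : Set (H × X)} (u : ℕ → V) (r K : ℕ) (z : X)
    (h : ∀ i ≤ r, Gen Φ (B.s K (u (i + 1)) (u i)) (B.s K (u i) (u 0) • z)) :
    ∀ i ≤ r + 1, Gen Φ (B.s K (u i) (u 0)) z := by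
  intro i
  induction i with
  | zero => intro _; rw [B.s_self]; exact Gen.one z
  | succ i ih =>
    intro hi
    rw [← B.mul K (u (i + 1)) (u i) (u 0)]
    exact Gen.mul (h i (by omega)) (ih (by omega))

/-- the elements moving the point to the arrows of the known dart -/
def bb (B : BB L H) (v w u0 : V) (K t : ℕ) (b : Bool) : H :=
  B.e (v, w) ^ t * (if b then B.s (K + 1) w u0 * B.s K u0 v else B.s K w v)

/-- A successful try generates the new arrow. -/
theorem succ_gen (B : BB L H) (E : Set (V × V)) (m T : ℕ) (ω : Om V X T) (v : V) (u : ℕ → V)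
    (r : ℕ) (hu : ∀ i ≤ r, L.Adj (u i) (u (i + 1))) (h0 : L.Adj v (u 0))
    (h1 : L.Adj v (u (r + 1))) (K : ℕ) (hK : K + 1 ≤ m) (p : X)
    (hs : ∀ l, ∃ j < m, (ω (dt u r l, hh B v u r K l j • p) : ℕ) = 0)
    (hb : ∀ t ≤ K, ∀ b, Gen (Phi B E m ω) (B.e (v, u (r + 1)))
      (bb B v (u (r + 1)) (u 0) K t b • p)) :
    Gen (Phi B E m ω) (B.e (v, u 0)) p := by
  set Φ := Phi B E m ω with hΦ
  set z := B.s K (u 0) v • p with hz
  -- the events in the form needed for `interval`
  have hev : ∀ l, ∃ j < m,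
      (ω (dt u r l, (B.e (dt u r l))⁻¹ ^ j • (ev B v u r K l • p)) : ℕ) = 0 := by
    intro l
    obtain ⟨j, hj, h⟩ := hs l
    refine ⟨j, hj, ?_⟩
    rw [smul_smul]
    exact h
  -- first chain
  have c1 : ∀ i ≤ r + 1, Gen Φ (B.s K (u i) (u 0)) z := by
    refine chain B u r K z fun i hi => ?_
    rcases i with _ | i
    · have h := interval B E m T ω (dt u r none) (hu 0 (by omega)).symm _ (hev none) K (by omega)
      rw [B.s_self, one_smul, B.s_eq K _ _ (hu 0 (by omega)).symm]
      exact h
    · have h := interval B E m T ω (dt u r (some (⟨i, by omega⟩, false)))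
        (hu (i + 1) hi).symm _ (hev _) K (by omega)
      rw [B.s_eq K _ _ (hu (i + 1) hi).symm, hz, smul_smul, B.mul]
      exact h
  -- second chain
  have c2 : ∀ i ≤ r + 1, Gen Φ (B.s (K + 1) (u i) (u 0)) z := by
    refine chain B u r (K + 1) z fun i hi => ?_
    rcases i with _ | i
    · have h := interval B E m T ω (dt u r none) (hu 0 (by omega)).symm _ (hev none) (K + 1) hK
      rw [B.s_self, one_smul, B.s_eq (K + 1) _ _ (hu 0 (by omega)).symm]
      exact h
    · have h := interval B E m T ω (dt u r (some (⟨i, by omega⟩, true)))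
        (hu (i + 1) hi).symm _ (hev _) (K + 1) hK
      rw [B.s_eq (K + 1) _ _ (hu (i + 1) hi).symm, hz, smul_smul]
      exact h
  -- the known arrows
  have d1 : Gen Φ (B.s K v (u 0)) z := by
    rw [← B.mul K v (u (r + 1)) (u 0)]
    refine Gen.mul ?_ (c1 (r + 1) le_rfl)
    rw [B.s_eq K _ _ h1, hz, smul_smul, B.mul]
    refine Gen.pow K fun t ht => ?_
    have h := hb t ht.le false
    rw [bb, if_neg (by simp)] at h
    rw [smul_smul]
    exact h
  have d2 : Gen Φ (B.s (K + 1) v (u 0)) z := by
    rw [← B.mul (K + 1) v (u (r + 1)) (u 0)]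
    refine Gen.mul ?_ (c2 (r + 1) le_rfl)
    rw [B.s_eq (K + 1) _ _ h1, hz, smul_smul]
    refine Gen.pow (K + 1) fun t ht => ?_
    have h := hb t (by omega) true
    rw [bb, if_pos rfl] at h
    rw [smul_smul]
    exact h
  have d3 := Gen.inv d1
  have e1 : B.s K v (u 0) • z = p := by
    rw [hz, smul_smul, B.mul, B.s_self, one_smul]
  rw [e1] at d3
  have e2 : (B.s K v (u 0))⁻¹ • p = z := by rw [← e1, inv_smul_smul]
  have d4 : Gen Φ (B.s (K + 1) v (u 0) * (B.s K v (u 0))⁻¹) p := Gen.mul (by rw [e2]; exact d2) d3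
  rw [B.s_eq (K + 1) _ _ h0, B.s_eq K _ _ h0, pow_succ', mul_assoc, mul_inv_cancel, mul_one] at d4
  exact d4

end

theorem card_miss {X : Type} [MulAction H X] [Fintype X] (B : BB L H) (E : Set (V × V))
    (m T : ℕ) (ω : Om V X T) (c : V × V)
    [DecidablePred fun x : X => ¬ Gen (Phi B E m ω) (B.e c) x] :
    Nat.card (Miss B E m ω c) =
      (univ.filter fun x : X => ¬ Gen (Phi B E m ω) (B.e c) x).card := by
  rw [Nat.card_coe_set_eq, ← Set.ncard_coe_finset]
  congr 1
  ext x
  simp [Miss]

open Classical in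
theorem emiss_eq {X : Type} [MulAction H X] [Fintype X] (B : BB L H) (E : Set (V × V))
    (t m : ℕ) (c : V × V) [Fintype (Om V X (m * t))] :
    emiss B X E t m c = (∑ ω : Om V X (m * t),
      ((univ.filter fun x : X => ¬ Gen (Phi B E m ω) (B.e c) x).card : ℝ)) /
        Fintype.card (Om V X (m * t)) := by
  unfold emiss
  rw [finsum_eq_sum_of_fintype, Nat.card_eq_fintype_card]
  congr 1
  refine Finset.sum_congr rfl fun ω _ => ?_
  rw [card_miss]

theorem step [Finite V] (B : BB L H) (E : Set (V × V)) (t m M r : ℕ) (v : V) (u : ℕ → V)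
    (hu : ∀ i ≤ r, L.Adj (u i) (u (i + 1)))
    (hinj : ∀ i j, i ≤ r + 1 → j ≤ r + 1 → u i = u j → i = j) (hv : ∀ i ≤ r + 1, v ≠ u i)
    (h0 : L.Adj v (u 0)) (h1 : L.Adj v (u (r + 1))) (ht : 1 ≤ t) (hm : M + 2 ≤ m) :
    ∃ F : Finset H, (1 : H) ∉ F ∧ ∀ (X : Type) [Finite X] [MulAction H X],
      emiss B X E t m (v, u 0) ≤ (∑ f ∈ F, (fx X f : ℝ)) +
        (1 - (1 / ((t : ℝ) + 1)) ^ (2 * r + 1)) ^ M * Nat.card X +
        2 * ((M : ℝ) + 2) ^ 2 * emiss B X E t m (v, u (r + 1)) := by
  classical
  let hmap : Fin M × Option (Fin r × Bool) × Fin m → H := fun q =>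
    hh B v u r (q.1 + 1) q.2.1 q.2.2
  let F : Finset H := (univ.image fun q : (Fin M × Option (Fin r × Bool) × Fin m) ×
    (Fin M × Option (Fin r × Bool) × Fin m) => (hmap q.1)⁻¹ * hmap q.2).erase 1
  refine ⟨F, Finset.notMem_erase _ _, ?_⟩
  intro X _ _
  have : Fintype X := Fintype.ofFinite X
  have : Fintype V := Fintype.ofFinite V
  have : Fintype (Om V X (m * t)) := inferInstance
  have : NeZero (m * t) := ⟨Nat.mul_ne_zero (by omega) (by omega)⟩
  have hΩ : (0 : ℝ) < Fintype.card (Om V X (m * t)) := by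
    have : 0 < Fintype.card (Om V X (m * t)) := Fintype.card_pos
    exact_mod_cast this
  set δ : ℝ := (1 - (1 / ((t : ℝ) + 1)) ^ (2 * r + 1)) ^ M with hδ
  have hδ0 : 0 ≤ δ := by
    refine pow_nonneg (sub_nonneg.2 (pow_le_one₀ (by positivity) ?_)) _
    rw [div_le_one (by positivity)]
    have : (0 : ℝ) ≤ t := Nat.cast_nonneg t
    linarith
  let bad : Finset X := univ.filter fun x => ∃ f ∈ F, f • x = x
  let fail : Om V X (m * t) → X → Prop := fun ω x => ∀ k : Fin M, ¬ ∀ l : Option (Fin r × Bool),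
    ∃ j : Fin m, (ω (dt u r l, hh B v u r (k + 1) l j • x) : ℕ) = 0
  let mis : Om V X (m * t) → V × V → Finset X := fun ω c =>
    univ.filter fun x : X => ¬ Gen (Phi B E m ω) (B.e c) x
  let bm : Fin M × Fin (M + 1) × Bool → H :=
    fun q => bb B v (u (r + 1)) (u 0) (q.1 + 1) q.2.1 q.2.2
  -- covering
  have hcov : ∀ ω, mis ω (v, u 0) ⊆ (bad ∪ univ.filter fun x => x ∉ bad ∧ fail ω x) ∪
      univ.biUnion fun q => univ.filter fun x => bm q • x ∈ mis ω (v, u (r + 1)) := by
    intro ω x hx
    by_contra hcon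
    rw [Finset.mem_union, Finset.mem_union, not_or, not_or] at hcon
    obtain ⟨⟨hc1, hc2⟩, hc3⟩ := hcon
    have hc2' : ¬ fail ω x := fun h => hc2 (by simp [hc1, h])
    have hc3' : ∀ q, Gen (Phi B E m ω) (B.e (v, u (r + 1))) (bm q • x) := by
      intro q
      by_contra h
      refine hc3 ?_
      rw [Finset.mem_biUnion]
      refine ⟨q, Finset.mem_univ _, ?_⟩
      simp [mis, h]
    obtain ⟨k, hk'⟩ := not_forall.1 hc2'
    have hk := not_not.1 hk'
    have hgen : Gen (Phi B E m ω) (B.e (v, u 0)) x := by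
      refine succ_gen B E m (m * t) ω v u r hu h0 h1 (k + 1) (by have := k.2; omega) x ?_ ?_
      · intro l
        obtain ⟨j, hj⟩ := hk l
        exact ⟨j, j.2, hj⟩
      · intro i hi b
        exact hc3' (k, ⟨i, by have := k.2; omega⟩, b)
    simp only [mis, Finset.mem_filter] at hx
    exact hx.2 hgen
  have hcard : ∀ ω, ((mis ω (v, u 0)).card : ℝ) ≤ bad.card +
      ((univ.filter fun x => x ∉ bad ∧ fail ω x).card : ℝ) +
      2 * ((M : ℝ) + 2) ^ 2 * (mis ω (v, u (r + 1))).card := by
    intro ω
    have a1 := Finset.card_le_card (hcov ω)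
    have a2 := Finset.card_union_le (bad ∪ univ.filter fun x => x ∉ bad ∧ fail ω x)
      (univ.biUnion fun q => univ.filter fun x => bm q • x ∈ mis ω (v, u (r + 1)))
    have a3 := Finset.card_union_le bad (univ.filter fun x => x ∉ bad ∧ fail ω x)
    have a4 : (univ.biUnion fun q => univ.filter fun x => bm q • x ∈ mis ω (v, u (r + 1))).card ≤
        ∑ q, (univ.filter fun x => bm q • x ∈ mis ω (v, u (r + 1))).card :=
      Finset.card_biUnion_le
    have a5 : ∀ q, (univ.filter fun x => bm q • x ∈ mis ω (v, u (r + 1))).card =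
        (mis ω (v, u (r + 1))).card := by
      intro q
      refine Finset.card_bij (fun x _ => bm q • x) ?_ ?_ ?_
      · intro x hx
        exact (Finset.mem_filter.1 hx).2
      · intro x _ y _ h
        exact smul_left_cancel _ h
      · intro y hy
        exact ⟨(bm q)⁻¹ • y, by simp [hy], by simp⟩
    rw [Finset.sum_congr rfl fun q _ => a5 q, Finset.sum_const, Finset.card_univ] at a4
    have a6 : Fintype.card (Fin M × Fin (M + 1) × Bool) = M * ((M + 1) * 2) := by
      simp
    rw [a6, smul_eq_mul] at a4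
    have a7 : M * ((M + 1) * 2) ≤ 2 * (M + 2) ^ 2 := by nlinarith
    have a8 : M * ((M + 1) * 2) * (mis ω (v, u (r + 1))).card ≤
        2 * (M + 2) ^ 2 * (mis ω (v, u (r + 1))).card := Nat.mul_le_mul_right _ a7
    have a9 : (mis ω (v, u 0)).card ≤ bad.card +
      (univ.filter fun x => x ∉ bad ∧ fail ω x).card +
      2 * (M + 2) ^ 2 * (mis ω (v, u (r + 1))).card := by omega
    exact_mod_cast a9
  have hbad : (bad.card : ℝ) ≤ ∑ f ∈ F, (fx X f : ℝ) := by
    have a1 : bad ⊆ F.biUnion fun f => univ.filter fun x => f • x = x := by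
      intro x hx
      obtain ⟨f, hf, hfx⟩ := (Finset.mem_filter.1 hx).2
      rw [Finset.mem_biUnion]
      exact ⟨f, hf, by simp [hfx]⟩
    have a2 := (Finset.card_le_card a1).trans Finset.card_biUnion_le
    have a3 : ∀ f ∈ F, (univ.filter fun x : X => f • x = x).card = fx X f := by
      intro f _
      rw [fx, Nat.card_eq_fintype_card, Fintype.card_subtype]
    rw [Finset.sum_congr rfl a3] at a2
    exact_mod_cast a2
  have hfail : ∑ ω : Om V X (m * t), ((univ.filter fun x => x ∉ bad ∧ fail ω x).card : ℝ) ≤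
      δ * Nat.card X * Fintype.card (Om V X (m * t)) := by
    have a1 : ∑ ω : Om V X (m * t), ((univ.filter fun x => x ∉ bad ∧ fail ω x).card : ℝ) =
        ∑ x : X, ((univ.filter fun ω : Om V X (m * t) => x ∉ bad ∧ fail ω x).card : ℝ) := by
      have := Finset.sum_card_bipartiteAbove_eq_sum_card_bipartiteBelow
        (s := (univ : Finset (Om V X (m * t)))) (t := (univ : Finset X))
        (fun ω x => x ∉ bad ∧ fail ω x)
      exact_mod_cast this
    rw [a1]
    have a2 : ∀ x : X, ((univ.filter fun ω : Om V X (m * t) => x ∉ bad ∧ fail ω x).card : ℝ) ≤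
        δ * Fintype.card (Om V X (m * t)) := by
      intro x
      by_cases hx : x ∈ bad
      · have : (univ.filter fun ω : Om V X (m * t) => x ∉ bad ∧ fail ω x) = ∅ := by
          ext ω; simp [hx]
        rw [this, Finset.card_empty, Nat.cast_zero]
        positivity
      · have hκ : Function.Injective fun q : Fin M × Option (Fin r × Bool) × Fin m =>
            (dt u r q.2.1, hmap q • x) := by
          intro q q' h
          have h1' : dt u r q.2.1 = dt u r q'.2.1 := congrArg Prod.fst h
          have h2' : hmap q • x = hmap q' • x := congrArg Prod.snd h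
          have h3' : hmap q = hmap q' := by
            by_contra hne
            refine hx (Finset.mem_filter.2 ⟨Finset.mem_univ _, (hmap q)⁻¹ * hmap q', ?_, ?_⟩)
            · refine Finset.mem_erase.2 ⟨?_, Finset.mem_image.2 ⟨(q, q'), Finset.mem_univ _, rfl⟩⟩
              rw [Ne, inv_mul_eq_one]
              exact hne
            · rw [mul_smul, ← h2', inv_smul_smul]
          obtain ⟨e1, e2, e3⟩ := hh_inj B hinj hv h1' h3'
          have e1' : q.1 = q'.1 := Fin.ext (by omega)
          exact Prod.ext e1' (Prod.ext e2 (Fin.ext e3))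
        have a3 := allfail M m t (by omega) ht _ hκ
        have a4 : Nat.card (Option (Fin r × Bool)) = 2 * r + 1 := by
          rw [Nat.card_eq_fintype_card]
          simp
          ring
        rw [a4, Nat.card_eq_fintype_card, Nat.card_eq_fintype_card, Fintype.card_subtype] at a3
        refine le_trans ?_ a3
        refine Nat.cast_le.2 (Finset.card_le_card ?_)
        intro ω hω
        refine Finset.mem_filter.2 ⟨Finset.mem_univ _, ?_⟩
        exact (Finset.mem_filter.1 hω).2.2
    refine (Finset.sum_le_sum fun x _ => a2 x).trans ?_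
    rw [Finset.sum_const, Finset.card_univ, nsmul_eq_mul, Nat.card_eq_fintype_card]
    exact le_of_eq (by ring)
  rw [emiss_eq, emiss_eq, div_le_iff₀ hΩ]
  have htot := Finset.sum_le_sum fun (ω : Om V X (m * t)) (_ : ω ∈ univ) => hcard ω
  rw [Finset.sum_add_distrib, Finset.sum_add_distrib, Finset.sum_const, Finset.card_univ,
    nsmul_eq_mul, ← Finset.mul_sum] at htot
  refine htot.trans ?_
  generalize hS : ∑ ω : Om V X (m * t), ((mis ω (v, u (r + 1))).card : ℝ) = S at htot
  have e1 : (∑ f ∈ F, (fx X f : ℝ) + δ * Nat.card X + 2 * ((M : ℝ) + 2) ^ 2 *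
      (S / Fintype.card (Om V X (m * t)))) * Fintype.card (Om V X (m * t)) =
      (Fintype.card (Om V X (m * t)) : ℝ) * ∑ f ∈ F, (fx X f : ℝ) +
        δ * Nat.card X * Fintype.card (Om V X (m * t)) +
        2 * ((M : ℝ) + 2) ^ 2 * S := by
    rw [add_mul, add_mul, mul_assoc (2 * ((M : ℝ) + 2) ^ 2) (S / _) _, div_mul_cancel₀ _ hΩ.ne']
    ring
  have e2 := mul_le_mul_of_nonneg_left hbad hΩ.le
  refine le_trans ?_ (le_of_eq e1.symm)
  exact add_le_add (add_le_add e2 hfail) le_rfl

end RGB
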