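import Pool.Agent.RGB.Good

set_option autoImplicit false

/-!
# RGB module UPPER: the upper bound for the rank
-/

namespace RGB

open Finset

variable {V H : Type} [Group H] {L : SimpleGraph V}

open Classical in
/-- The chosen arrows together with the missing arrows. -/
noncomputable def Arr (B : BB L H) {X : Type} [MulAction H X] [Fintype X] [Fintype V]
    (E : Finset (V × V)) (m : ℕ) {T : ℕ} (ω : Om V X T) : Finset (H × X) :=
  (E ×ˢ (univ : Finset X)).image (fun a => (B.e a.1, a.2)) ∪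
    (univ.biUnion fun c : V × V => (univ.filter fun x : X => x ∈ Dset B m ω c).image
      fun x => (B.e c, x)) ∪
    ((univ.filter fun c : V × V => L.Adj c.1 c.2).biUnion fun c : V × V =>
      (univ.filter fun x : X => ¬ Gen (Phi B (E : Set (V × V)) m ω) (B.e c) x).image
      fun x => (B.e c, x))

open Classical in
theorem card_Arr (B : BB L H) {X : Type} [MulAction H X] [Fintype X] [Fintype V]
    (E : Finset (V × V)) (m : ℕ) {T : ℕ} (ω : Om V X T) :
    ((Arr B E m ω).card : ℝ) ≤ E.card * Nat.card X +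
      ∑ c : V × V, (Nat.card {x : X // ∃ j < 2 * m, (ω (c, (B.e c)⁻¹ ^ j • x) : ℕ) = 0} : ℝ) +
      ∑ c ∈ univ.filter (fun c : V × V => L.Adj c.1 c.2),
        ((univ.filter fun x : X => ¬ Gen (Phi B (E : Set (V × V)) m ω) (B.e c) x).card : ℝ) := by
  have h1 : ((E ×ˢ (univ : Finset X)).image (fun a => (B.e a.1, a.2))).card ≤
      E.card * Nat.card X := by
    refine Finset.card_image_le.trans ?_
    rw [Finset.card_product, Finset.card_univ, Nat.card_eq_fintype_card]
  have h2 : (univ.biUnion fun c : V × V => (univ.filter fun x : X => x ∈ Dset B m ω c).image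
      fun x => (B.e c, x)).card ≤
      ∑ c : V × V, Nat.card {x : X // ∃ j < 2 * m, (ω (c, (B.e c)⁻¹ ^ j • x) : ℕ) = 0} := by
    refine Finset.card_biUnion_le.trans (Finset.sum_le_sum fun c _ => ?_)
    refine Finset.card_image_le.trans ?_
    rw [Nat.card_eq_fintype_card, Fintype.card_subtype]
    refine Finset.card_le_card fun x hx => ?_
    exact Finset.mem_filter.2 ⟨Finset.mem_univ _, (Finset.mem_filter.1 hx).2⟩
  have h3 : ((univ.filter fun c : V × V => L.Adj c.1 c.2).biUnion fun c : V × V =>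
      (univ.filter fun x : X => ¬ Gen (Phi B (E : Set (V × V)) m ω) (B.e c) x).image
      fun x => (B.e c, x)).card ≤ ∑ c ∈ univ.filter (fun c : V × V => L.Adj c.1 c.2),
      (univ.filter fun x : X => ¬ Gen (Phi B (E : Set (V × V)) m ω) (B.e c) x).card :=
    Finset.card_biUnion_le.trans (Finset.sum_le_sum fun c _ => Finset.card_image_le)
  have h4 := (Finset.card_union_le ((E ×ˢ (univ : Finset X)).image (fun a => (B.e a.1, a.2)) ∪
    (univ.biUnion fun c : V × V => (univ.filter fun x : X => x ∈ Dset B m ω c).image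
      fun x => (B.e c, x))) ((univ.filter fun c : V × V => L.Adj c.1 c.2).biUnion
      fun c : V × V =>
      (univ.filter fun x : X => ¬ Gen (Phi B (E : Set (V × V)) m ω) (B.e c) x).image
      fun x => (B.e c, x))).trans
    (Nat.add_le_add ((Finset.card_union_le _ _).trans (Nat.add_le_add h1 h2)) h3)
  unfold Arr
  exact_mod_cast h4

theorem gen_Arr (B : BB L H) {X : Type} [MulAction H X] [Fintype X] [Fintype V]
    (E : Finset (V × V)) (m : ℕ) {T : ℕ} (ω : Om V X T) (g : H) (x : X) :
    Gen (Arr B E m ω : Set (H × X)) g x := by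
  classical
  refine Gen.all_of_closure _ B.gen ?_ g x
  rintro s ⟨v, w, hvw, rfl⟩ y
  by_cases hy : Gen (Phi B (E : Set (V × V)) m ω) (B.e (v, w)) y
  · refine Gen.mono ?_ hy
    rintro ⟨a, z⟩ ⟨c, hc, h1, h2⟩
    change a = B.e c at h1
    subst h1
    rw [Finset.mem_coe, Arr, Finset.mem_union, Finset.mem_union]
    left
    rcases h2 with h2 | h2
    · left
      exact Finset.mem_image.2 ⟨(c, z), Finset.mem_product.2 ⟨by exact_mod_cast h2,
        Finset.mem_univ _⟩, rfl⟩
    · right
      exact Finset.mem_biUnion.2 ⟨c, Finset.mem_univ _, Finset.mem_image.2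
        ⟨z, Finset.mem_filter.2 ⟨Finset.mem_univ _, h2⟩, rfl⟩⟩
  · refine Gen.base ?_
    rw [Finset.mem_coe, Arr, Finset.mem_union]
    right
    exact Finset.mem_biUnion.2 ⟨(v, w), Finset.mem_filter.2 ⟨Finset.mem_univ _, hvw⟩,
      Finset.mem_image.2 ⟨y, Finset.mem_filter.2 ⟨Finset.mem_univ _, hy⟩, rfl⟩⟩

/-- The upper bound for the rank of one subgroup with few fixed points. -/
theorem rk_upper [Fintype V] (B : BB L H) (E : Finset (V × V))
    (hE : ∀ c ∈ E, L.Adj c.1 c.2) (hcov : ∀ v w, L.Adj v w → ∃ c ∈ E, Deq L (v, w) c)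
    (ε : ℝ) (hε : 0 < ε) :
    ∃ F : Finset H, (1 : H) ∉ F ∧ ∃ τ : ℝ, 0 < τ ∧ ∀ (Γ : Subgroup H) [Γ.FiniteIndex],
      (∀ f ∈ F, (fx (H ⧸ Γ) f : ℝ) ≤ τ * Γ.index) →
        (rk Γ : ℝ) + Γ.index ≤ (E.card + ε) * Γ.index + 1 := by
  classical
  set D : ℝ := (Fintype.card (V × V) : ℝ) with hD
  have hD0 : 0 ≤ D := Nat.cast_nonneg _
  obtain ⟨t, ht⟩ := exists_nat_gt (4 * D / ε)
  have ht1 : 1 ≤ t := by
    rcases Nat.eq_zero_or_pos t with h | h
    · subst h
      have : 0 ≤ 4 * D / ε := by positivity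
      rw [Nat.cast_zero] at ht
      linarith
    · exact h
  have ht0 : (0 : ℝ) < t := by exact_mod_cast ht1
  have hcost : D * (2 / t) ≤ ε / 2 := by
    rw [div_lt_iff₀ hε] at ht
    rw [mul_div_assoc', div_le_iff₀ ht0]
    nlinarith
  obtain ⟨m, hm, F, hF, τ, hτ, hgood⟩ := good_all B E t ht1 hE hcov (ε / (2 * (D + 1)))
    (by positivity)
  refine ⟨F, hF, τ, hτ, ?_⟩
  intro Γ _ hX
  set X := H ⧸ Γ with hXdef
  have : Finite X := inferInstance
  have : Fintype X := Fintype.ofFinite X
  have hcard : (Γ.index : ℝ) = Nat.card X := by rw [Subgroup.index]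
  rw [hcard] at hX ⊢
  have : Fintype (Om V X (m * t)) := inferInstance
  have : NeZero (m * t) := ⟨Nat.mul_ne_zero (by omega) (by omega)⟩
  have hne : (univ : Finset (Om V X (m * t))).Nonempty := ⟨fun _ => 0, Finset.mem_univ _⟩
  have hΩ : (0 : ℝ) < Fintype.card (Om V X (m * t)) := by
    have : 0 < Fintype.card (Om V X (m * t)) := Fintype.card_pos_iff.2 ⟨fun _ => 0⟩
    exact_mod_cast this
  set N : ℝ := (Fintype.card (Om V X (m * t)) : ℝ) with hN
  set n : ℝ := (Nat.card X : ℝ) with hn
  have hn0 : 0 ≤ n := Nat.cast_nonneg _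
  -- the sum of the numbers of arrows
  have hsum : ∑ ω : Om V X (m * t), ((Arr B E m ω).card : ℝ) ≤
      ∑ ω : Om V X (m * t), ((E.card + ε) * n) := by
    refine (Finset.sum_le_sum fun ω _ => card_Arr B E m ω).trans ?_
    rw [Finset.sum_add_distrib, Finset.sum_add_distrib, Finset.sum_const, Finset.sum_const,
      Finset.card_univ, nsmul_eq_mul, nsmul_eq_mul, Finset.sum_comm]
    have k1 : ∑ c : V × V, ∑ ω : Om V X (m * t),
        (Nat.card {x : X // ∃ j < 2 * m, (ω (c, (B.e c)⁻¹ ^ j • x) : ℕ) = 0} : ℝ) ≤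
        ε / 2 * n * N := by
      have k2 : ∀ c : V × V, ∑ ω : Om V X (m * t),
          (Nat.card {x : X // ∃ j < 2 * m, (ω (c, (B.e c)⁻¹ ^ j • x) : ℕ) = 0} : ℝ) ≤
          2 / t * n * N := by
        intro c
        have := cost (I := (V × V) × X) (X := X) m t hm ht1 fun j x => (c, (B.e c)⁻¹ ^ j • x)
        rw [finsum_eq_sum_of_fintype, Nat.card_eq_fintype_card (α := (V × V) × X → Fin (m * t))]
          at this
        exact this
      refine (Finset.sum_le_sum fun c _ => k2 c).trans ?_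
      rw [Finset.sum_const, Finset.card_univ, nsmul_eq_mul]
      calc D * (2 / t * n * N) = D * (2 / t) * (n * N) := by ring
        _ ≤ ε / 2 * (n * N) := mul_le_mul_of_nonneg_right hcost (by positivity)
        _ = ε / 2 * n * N := by ring
    have k3 : ∑ ω : Om V X (m * t), ∑ c ∈ univ.filter (fun c : V × V => L.Adj c.1 c.2),
        ((univ.filter fun x : X => ¬ Gen (Phi B (E : Set (V × V)) m ω) (B.e c) x).card : ℝ) ≤
        ε / 2 * n * N := by
      rw [Finset.sum_comm]
      have k4 : ∀ c ∈ univ.filter (fun c : V × V => L.Adj c.1 c.2), ∑ ω : Om V X (m * t),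
          ((univ.filter fun x : X =>
            ¬ Gen (Phi B (E : Set (V × V)) m ω) (B.e c) x).card : ℝ) ≤
          ε / (2 * (D + 1)) * n * N := by
        intro c hc
        have k5 := hgood X hX c.1 c.2 (Finset.mem_filter.1 hc).2
        rw [emiss_eq, div_le_iff₀ hΩ] at k5
        exact k5
      refine (Finset.sum_le_sum k4).trans ?_
      rw [Finset.sum_const, nsmul_eq_mul]
      have k6 : ((univ.filter (fun c : V × V => L.Adj c.1 c.2)).card : ℝ) ≤ D + 1 := by
        have : (univ.filter (fun c : V × V => L.Adj c.1 c.2)).card ≤ Fintype.card (V × V) :=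
          Finset.card_le_univ _
        have : ((univ.filter (fun c : V × V => L.Adj c.1 c.2)).card : ℝ) ≤
          (Fintype.card (V × V) : ℝ) := by exact_mod_cast this
        linarith
      calc ((univ.filter (fun c : V × V => L.Adj c.1 c.2)).card : ℝ) *
            (ε / (2 * (D + 1)) * n * N) ≤ (D + 1) * (ε / (2 * (D + 1)) * n * N) :=
            mul_le_mul_of_nonneg_right k6 (by positivity)
        _ = ε / 2 * n * N := by field_simp
    have hcast : ((Nat.card X : ℕ) : ℝ) = n := rfl
    nlinarith [k1, k3]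
  obtain ⟨ω, _, hω⟩ := Finset.exists_le_of_sum_le hne hsum
  have hfin := rk_le Γ (Arr B E m ω) (gen_Arr B E m ω)
  have hfin' : (rk Γ : ℝ) + (Γ.index : ℝ) ≤ ((Arr B E m ω).card : ℝ) + 1 := by
    exact_mod_cast hfin
  rw [hcard] at hfin'
  linarith

end RGB
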